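import Pool.Graph.R_pool_sql_team_seeded_63374d34.N906.RS.All

/-!
# The number of the points over a number field with `3 h - rad` at least `t`

Notation of the library files `N906/RS` and `W223/AK`: `ht x = d h(P)`, `tr P = d rad(P)`.
-/

set_option autoImplicit false

namespace Pool.Agent.KS6_64.RO

open NumberField IsDedekindDomain Finset Filter Topology Pool.Agent.H691R3 Pool.Agent.W223.AK
open Pool.Agent.N906.RS Pool.Agent.N776.RS

variable {K : Type} [Field K] [NumberField K]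

/-- a geometric series -/
theorem geom_le {u : ℝ} (hu : 0 < u) (n : ℕ) :
    ∑ j ∈ range n, Real.exp (-(u * (j : ℝ))) ≤ (1 - Real.exp (-u))⁻¹ := by
  have h1 : Real.exp (-u) < 1 := by rw [Real.exp_lt_one_iff]; linarith
  have h0 : 0 ≤ Real.exp (-u) := (Real.exp_pos _).le
  have h2 : ∀ j ∈ range n, Real.exp (-(u * (j : ℝ))) = Real.exp (-u) ^ j := by
    intro j _
    rw [← Real.exp_nat_mul]
    congr 1
    ring
  rw [Finset.sum_congr rfl h2, ← tsum_geometric_of_lt_one h0 h1]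
  exact Summable.sum_le_tsum _ (fun _ _ => pow_nonneg h0 _) (summable_geometric_of_lt_one h0 h1)

/-- **The points with `3 ht - tr` between `t` and `X`.** -/
theorem cellt {C : ℝ} (hC : 0 < C) (hcell : CellB K C) {u G : ℝ} (hu : 0 < u) (hu1 : u ≤ 1)
    (hG : ∀ F : Finset (Fin 3 → Idl K), (∀ E ∈ F, PC E) →
      ∑ E ∈ F, Real.exp (-(u * tl E) - tr E) ≤ G)
    {r : ℕ} (hr : r = Fintype.card (InfinitePlace K)) (X t : ℝ) (hX : 0 ≤ X) (F : Finset K)
    (hF : ∀ x ∈ F, Pt x ∧ ht x ≤ X ∧ ∃ P : Fin 3 → Idl K, IsP ∅ x P ∧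
      tr P + t ≤ 3 * ht x ∧ 3 * ht x ≤ tr P + X) :
    (F.card : ℝ) ≤ ((3 : ℝ) ^ r * ((1 - Real.exp (-u))⁻¹) ^ r) *
      (C * (1 + Real.exp (12 * r)) * Real.exp (7 * r) * Real.exp (2 * X - (1 - u) * t) * G) := by
  classical
  have hG0 : 0 ≤ G := by simpa using hG ∅ (by simp)
  -- choices
  have hP' : ∀ x : K, ∃ P : Fin 3 → Idl K, x ∈ F → IsP ∅ x P ∧
      tr P + t ≤ 3 * ht x ∧ 3 * ht x ≤ tr P + X := by
    intro x
    by_cases hx : x ∈ F
    · obtain ⟨P, hP⟩ := (hF x hx).2.2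
      exact ⟨P, fun _ => hP⟩
    · exact ⟨0, fun h => absurd h hx⟩
  choose P hP using hP'
  have hτ' : ∀ (x : K) (w : InfinitePlace K), ∃ t : Fin 3, ∀ l,
      lm (Sum.inl w : Pl K) l x ≤ lm (Sum.inl w) t x := by
    intro x w
    obtain ⟨t, -, ht⟩ := Finset.exists_max_image (univ : Finset (Fin 3))
      (fun l => lm (Sum.inl w : Pl K) l x) ⟨0, mem_univ _⟩
    exact ⟨t, fun l => ht l (mem_univ l)⟩
  choose τ hτ using hτ'
  obtain ⟨k, hk⟩ : ∃ k : K → InfinitePlace K → ℕ,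
      k = fun x w => ⌊lm (Sum.inl w : Pl K) (τ x w) x⌋₊ := ⟨_, rfl⟩
  obtain ⟨Ef, hEf⟩ : ∃ Ef : K → Fin 3 → Idl K, Ef = fun x l => shr (P x l) := ⟨_, rfl⟩
  have hlm0 : ∀ x ∈ F, ∀ w, 0 ≤ lm (Sum.inl w : Pl K) (τ x w) x := by
    intro x _ w
    refine le_trans ?_ (hτ x w 1)
    unfold lm
    rw [L_one, map_one, div_one]
    exact mul_nonneg (mt_pos _).le (Real.log_nonneg (le_max_right _ _))
  have hkl : ∀ x ∈ F, ∀ w, (k x w : ℝ) ≤ lm (Sum.inl w : Pl K) (τ x w) x := by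
    intro x hx w
    rw [hk]
    exact Nat.floor_le (hlm0 x hx w)
  have hku : ∀ x w, lm (Sum.inl w : Pl K) (τ x w) x ≤ (k x w : ℝ) + 1 := by
    intro x w
    rw [hk]
    exact (Nat.lt_floor_add_one _).le
  have hr0 : (0 : ℝ) ≤ r := Nat.cast_nonneg _
  have hrc : ((Fintype.card (InfinitePlace K) : ℕ) : ℝ) = r := by rw [hr]
  -- the main inequalities
  have hmain : ∀ x ∈ F, t - 7 * r ≤ tl (Ef x) + ∑ w, (k x w : ℝ) ∧
      tl (Ef x) + ∑ w, (k x w : ℝ) ≤ X + 6 * r := by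
    intro x hx
    obtain ⟨hpt, hm2, -⟩ := hF x hx
    obtain ⟨hI, hR1, hR2⟩ := hP x hx
    obtain ⟨b1, b2⟩ := tl_bounds hpt hI (hτ x)
    rw [hrc] at b1 b2
    have e1 : tl (P x) = tl (Ef x) + tr (P x) := by rw [hEf]; exact tl_shr (P x)
    have s1 : ∑ w, (k x w : ℝ) ≤ ∑ w : InfinitePlace K, lm (Sum.inl w : Pl K) (τ x w) x :=
      Finset.sum_le_sum fun w _ => hkl x hx w
    have s2 : ∑ w : InfinitePlace K, lm (Sum.inl w : Pl K) (τ x w) x ≤
        ∑ w, (k x w : ℝ) + r := by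
      have : ∑ w : InfinitePlace K, lm (Sum.inl w : Pl K) (τ x w) x ≤
          ∑ w : InfinitePlace K, ((k x w : ℝ) + 1) := Finset.sum_le_sum fun w _ => hku x w
      rw [Finset.sum_add_distrib] at this
      have e2 : ∑ _w : InfinitePlace K, (1 : ℝ) = r := by
        rw [Finset.sum_const, nsmul_eq_mul, mul_one, Finset.card_univ, hrc]
      rwa [e2] at this
    constructor <;> linarith
  -- the codes
  obtain ⟨n, hn⟩ : ∃ n : ℕ, X + 6 * r < n := exists_nat_gt _
  set T : Finset ((InfinitePlace K → Fin 3) × (InfinitePlace K → ℕ)) :=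
    (univ : Finset (InfinitePlace K → Fin 3)) ×ˢ
      Fintype.piFinset (fun _ : InfinitePlace K => range n) with hT
  have hTsum : ∑ b ∈ T, Real.exp (-(u * ∑ w, (b.2 w : ℝ))) ≤
      (3 : ℝ) ^ r * ((1 - Real.exp (-u))⁻¹) ^ r := by
    rw [hT, Finset.sum_product]
    simp only
    rw [Finset.sum_const, nsmul_eq_mul, card_univ, Fintype.card_fun, Fintype.card_fin, ← hr]
    push_cast
    apply mul_le_mul_of_nonneg_left _ (by positivity)
    have e : ∑ b ∈ Fintype.piFinset (fun _ : InfinitePlace K => range n),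
        Real.exp (-(u * ∑ w, (b w : ℝ))) =
        ∏ _w : InfinitePlace K, ∑ j ∈ range n, Real.exp (-(u * (j : ℝ))) := by
      rw [Finset.prod_univ_sum]
      refine Finset.sum_congr rfl fun b _ => ?_
      rw [← Real.exp_sum]
      congr 1
      rw [Finset.mul_sum, Finset.sum_neg_distrib]
    rw [e, Finset.prod_const, card_univ, ← hr]
    exact pow_le_pow_left₀ (Finset.sum_nonneg fun _ _ => (Real.exp_pos _).le) (geom_le hu n) r
  have hmaps : ∀ x ∈ F, (τ x, k x) ∈ T := by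
    intro x hx
    rw [hT, mem_product]
    refine ⟨mem_univ _, ?_⟩
    rw [Fintype.mem_piFinset]
    intro w
    rw [mem_range]
    have h1 := (hmain x hx).2
    have h2 := tl_nonneg (Ef x)
    have h3 : (k x w : ℝ) ≤ ∑ w, (k x w : ℝ) :=
      Finset.single_le_sum (f := fun w => (k x w : ℝ)) (fun w _ => Nat.cast_nonneg _) (mem_univ w)
    have h4 : (k x w : ℝ) < (n : ℝ) := by linarith
    exact_mod_cast h4
  obtain ⟨B, hB⟩ : ∃ B : ℝ, B = C * (1 + Real.exp (12 * r)) * Real.exp (7 * r) *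
        Real.exp (2 * X - (1 - u) * t) * G := ⟨_, rfl⟩
  have hB0 : 0 ≤ B := by rw [hB]; positivity
  rw [← hB]
  have hfib : ∀ b ∈ T, ((#{x ∈ F | (τ x, k x) = b} : ℕ) : ℝ) ≤
      Real.exp (-(u * ∑ w, (b.2 w : ℝ))) * B := by
    rintro ⟨s, j⟩ -
    set F' : Finset K := {x ∈ F | (τ x, k x) = (s, j)} with hF'
    have hmem : ∀ x ∈ F', x ∈ F ∧ τ x = s ∧ k x = j := by
      intro x hx
      rw [hF', mem_filter, Prod.mk.injEq] at hx
      exact ⟨hx.1, hx.2.1, hx.2.2⟩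
    rw [card_eq_sum_card_image Ef F']
    push_cast
    have hPC : ∀ E ∈ F'.image Ef, PC E := by
      intro E hE
      obtain ⟨x, hx, rfl⟩ := mem_image.1 hE
      obtain ⟨hxF, -, -⟩ := hmem x hx
      intro l l' hl
      rw [hEf]
      exact cop_shr ((hP x hxF).1.cop hl)
    have hterm : ∀ E ∈ F'.image Ef, ((#{x ∈ F' | Ef x = E} : ℕ) : ℝ) ≤
        Real.exp (-(u * ∑ w, (j w : ℝ))) * (C * (1 + Real.exp (12 * r)) * Real.exp (7 * r) *
        Real.exp (2 * X - (1 - u) * t)) * Real.exp (-(u * tl E) - tr E) := by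
      intro E hE
      obtain ⟨x₀, hx₀, hE₀⟩ := mem_image.1 hE
      obtain ⟨hx₀F, hx₀t, hx₀j⟩ := hmem x₀ hx₀
      obtain ⟨g1, g2⟩ := hmain x₀ hx₀F
      rw [hE₀, hx₀j] at g1 g2
      have hc := hcell X (fun l => upp (E l)) s (fun w => (j w : ℝ)) {x ∈ F' | Ef x = E}
        hX (fun w => Nat.cast_nonneg _) (by
          intro x hx
          rw [mem_filter] at hx
          obtain ⟨hxF, hxt, hxj⟩ := hmem x hx.1
          refine ⟨(hF x hxF).1, (hF x hxF).2.1, fun w => ?_, P x, (hP x hxF).1, fun l => ?_⟩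
          · rw [← hxt, ← hxj]
            exact hkl x hxF w
          · rw [← hx.2, hEf]
            exact up_shr_le _)
      refine hc.trans ?_
      have hup : tl (fun l => upp (E l)) = tl E + tr E := tl_up E
      rw [hup]
      have ht1 := tr_le_tl E
      have ht2 := tl_nonneg E
      have ht3 := tr_nonneg E
      obtain ⟨σ, hσ⟩ : ∃ σ : ℝ, σ = ∑ w, (j w : ℝ) := ⟨_, rfl⟩
      have hσ0 : 0 ≤ σ := by rw [hσ]; exact Finset.sum_nonneg fun w _ => Nat.cast_nonneg _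
      rw [← hσ] at g1 g2 ⊢
      have q1 : (1 : ℝ) ≤ Real.exp (12 * r) * Real.exp (2 * X - (tl E + tr E) - σ) := by
        rw [← Real.exp_add]
        apply Real.one_le_exp
        linarith
      have q2 : Real.exp (2 * X - (tl E + tr E) - σ) ≤
          Real.exp (-(u * σ)) * (Real.exp (7 * r) * Real.exp (2 * X - (1 - u) * t) *
            Real.exp (-(u * tl E) - tr E)) := by
        rw [← Real.exp_add, ← Real.exp_add, ← Real.exp_add]
        apply Real.exp_le_exp.2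
        have q3 : (1 - u) * (t - 7 * r) ≤ (1 - u) * (tl E + σ) :=
          mul_le_mul_of_nonneg_left g1 (by linarith)
        have q4 : 0 ≤ u * (7 * r) := by positivity
        nlinarith
      calc C * (Real.exp (2 * X - (tl E + tr E) - σ) + 1)
          ≤ C * ((1 + Real.exp (12 * r)) * Real.exp (2 * X - (tl E + tr E) - σ)) := by
            apply mul_le_mul_of_nonneg_left _ hC.le
            linarith
        _ ≤ C * ((1 + Real.exp (12 * r)) * (Real.exp (-(u * σ)) * (Real.exp (7 * r) *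
              Real.exp (2 * X - (1 - u) * t) * Real.exp (-(u * tl E) - tr E)))) := by
            apply mul_le_mul_of_nonneg_left _ hC.le
            exact mul_le_mul_of_nonneg_left q2 (by positivity)
        _ = _ := by ring
    refine (Finset.sum_le_sum hterm).trans ?_
    rw [← Finset.mul_sum, hB]
    calc Real.exp (-(u * ∑ w, (j w : ℝ))) * (C * (1 + Real.exp (12 * r)) * Real.exp (7 * r) *
          Real.exp (2 * X - (1 - u) * t)) * ∑ E ∈ F'.image Ef, Real.exp (-(u * tl E) - tr E)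
        ≤ Real.exp (-(u * ∑ w, (j w : ℝ))) * (C * (1 + Real.exp (12 * r)) * Real.exp (7 * r) *
          Real.exp (2 * X - (1 - u) * t)) * G :=
          mul_le_mul_of_nonneg_left (hG _ hPC) (by positivity)
      _ = _ := by ring
  rw [card_eq_sum_card_fiberwise (f := fun x => (τ x, k x)) (t := T) hmaps]
  push_cast
  refine (Finset.sum_le_sum hfib).trans ?_
  rw [← Finset.sum_mul]
  exact mul_le_mul_of_nonneg_right hTsum hB0

/-- **The number of the points with `3 ht - tr ≥ t`.** -/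
theorem deficiency (K : Type) [Field K] [NumberField K] (κ δ : ℝ) (hκ : κ < 1)
    (hδ : 0 < δ) : ∃ C : ℝ, 0 < C ∧ ∀ (X t : ℝ) (F : Finset K), 0 ≤ X → 0 ≤ t → t ≤ κ * X →
      (∀ x ∈ F, Pt x ∧ ht x ≤ X ∧ ∃ P : Fin 3 → Idl K, IsP ∅ x P ∧ tr P + t ≤ 3 * ht x) →
      (F.card : ℝ) ≤ C * Real.exp (2 * X - (1 - δ) * t) := by
  classical
  obtain ⟨r, hr⟩ : ∃ r : ℕ, r = Fintype.card (InfinitePlace K) := ⟨_, rfl⟩
  obtain ⟨C, hC, hcell⟩ := cell_all K
  obtain ⟨u₀, hu₀, hu₀1, hgup⟩ := gup_all K 1 0 1 one_pos le_rfl (by norm_num) one_pos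
  -- the parameters
  obtain ⟨κ', hκ'⟩ : ∃ κ', κ' = max κ 0 := ⟨_, rfl⟩
  have hκ'0 : 0 ≤ κ' := by rw [hκ']; exact le_max_right _ _
  have hκ'1 : κ' < 1 := by rw [hκ']; exact max_lt hκ one_pos
  have hκκ' : κ ≤ κ' := by rw [hκ']; exact le_max_left _ _
  obtain ⟨lam, hlam⟩ : ∃ lam, lam = 2 + (1 - κ') / 2 := ⟨_, rfl⟩
  obtain ⟨D, hD, hbig⟩ := big K lam ((1 - κ') / 2) (by rw [hlam]; linarith)
    (by rw [hlam]; linarith) (by linarith)
  obtain ⟨u, hu⟩ : ∃ u, u = min (min (u₀ / 2) (δ)) 1 := ⟨_, rfl⟩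
  have hu0 : 0 < u := by rw [hu]; exact lt_min (lt_min (by linarith) hδ) one_pos
  have huu : u < u₀ := by
    have : u ≤ u₀ / 2 := by rw [hu]; exact (min_le_left _ _).trans (min_le_left _ _)
    linarith
  have huδ : u ≤ δ := by rw [hu]; exact (min_le_left _ _).trans (min_le_right _ _)
  have hu1 : u ≤ 1 := by rw [hu]; exact min_le_right _ _
  obtain ⟨G, hGd⟩ : ∃ G, G = Real.exp ((1 + 1) * (3 * 1) / (u * Real.log (1 / u))) := ⟨_, rfl⟩
  have hG : ∀ F : Finset (Fin 3 → Idl K), (∀ E ∈ F, PC E) →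
      ∑ E ∈ F, Real.exp (-(u * tl E) - tr E) ≤ G := by
    intro F' hF'
    have h8 := hgup u hu0 huu F' hF'
    rw [hGd]
    refine le_trans (le_of_eq (Finset.sum_congr rfl fun E _ => ?_)) h8
    rw [one_pow, one_mul]
    congr 1
    ring
  obtain ⟨A, hA⟩ : ∃ A, A = ((3 : ℝ) ^ r * ((1 - Real.exp (-u))⁻¹) ^ r) *
      (C * (1 + Real.exp (12 * r)) * Real.exp (7 * r) * G) := ⟨_, rfl⟩
  have hA0 : 0 ≤ A := by
    have h1 : Real.exp (-u) < 1 := by rw [Real.exp_lt_one_iff]; linarith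
    have h2 : 0 ≤ (1 - Real.exp (-u))⁻¹ := inv_nonneg.2 (by linarith)
    have h3 : 0 ≤ G := by rw [hGd]; exact (Real.exp_pos _).le
    rw [hA]
    positivity
  refine ⟨D + A, by positivity, fun X t F hX ht0 htX hF => ?_⟩
  -- the choice of the ideals
  have hP' : ∀ x : K, ∃ P : Fin 3 → Idl K, x ∈ F → IsP ∅ x P ∧ tr P + t ≤ 3 * ht x := by
    intro x
    by_cases hx : x ∈ F
    · obtain ⟨P, hP⟩ := (hF x hx).2.2
      exact ⟨P, fun _ => hP⟩
    · exact ⟨0, fun h => absurd h hx⟩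
  choose P hP using hP'
  have h1 : ((#{x ∈ F | tr (P x) ≤ lam * ht x} : ℕ) : ℝ) ≤
      D * Real.exp (2 * X - (1 - δ) * t) := by
    refine (hbig X _ hX ?_).trans ?_
    · intro x hx
      rw [mem_filter] at hx
      exact ⟨(hF x hx.1).1, (hF x hx.1).2.1, P x, (hP x hx.1).1, hx.2⟩
    · apply mul_le_mul_of_nonneg_left _ hD.le
      apply Real.exp_le_exp.2
      have h2 : t ≤ κ' * X := htX.trans (mul_le_mul_of_nonneg_right hκκ' hX)
      have h3 : 0 ≤ δ * t := by positivity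
      rw [hlam]
      nlinarith
  have h2 : ((#{x ∈ F | ¬ tr (P x) ≤ lam * ht x} : ℕ) : ℝ) ≤
      A * Real.exp (2 * X - (1 - δ) * t) := by
    have hc := cellt hC hcell hu0 hu1 hG hr X t hX {x ∈ F | ¬ tr (P x) ≤ lam * ht x} (by
      intro x hx
      rw [mem_filter] at hx
      obtain ⟨hxF, hx1⟩ := hx
      push Not at hx1
      refine ⟨(hF x hxF).1, (hF x hxF).2.1, P x, (hP x hxF).1, (hP x hxF).2, ?_⟩
      have h3 : (3 - lam) * ht x ≤ 1 * ht x :=
        mul_le_mul_of_nonneg_right (by rw [hlam]; linarith) (ht_nonneg x)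
      have h4 := (hF x hxF).2.1
      linarith)
    refine hc.trans ?_
    have e1 : Real.exp (2 * X - (1 - u) * t) ≤ Real.exp (2 * X - (1 - δ) * t) := by
      apply Real.exp_le_exp.2
      have : u * t ≤ δ * t := mul_le_mul_of_nonneg_right huδ ht0
      linarith
    calc _ = A * Real.exp (2 * X - (1 - u) * t) := by rw [hA]; ring
      _ ≤ _ := mul_le_mul_of_nonneg_left e1 hA0
  have h3 : (F.card : ℝ) = ((#{x ∈ F | tr (P x) ≤ lam * ht x} : ℕ) : ℝ) +
      ((#{x ∈ F | ¬ tr (P x) ≤ lam * ht x} : ℕ) : ℝ) := by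
    exact_mod_cast (Finset.card_filter_add_card_filter_not _).symm
  rw [h3, add_mul]
  exact add_le_add h1 h2

end Pool.Agent.KS6_64.RO
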