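import Pool.Agent.KS6_64.RO.Points

/-!
# The order of magnitude of the number of the points of bounded radical
-/

set_option autoImplicit false

namespace Pool.Agent.KS6_64.RO

open NumberField IsDedekindDomain Finset Filter Topology Pool.Agent.H691R3 Pool.Agent.W223.AK
open Pool.Agent.N906.RS Pool.Agent.N776.RS

/-- all points: the radical is at most three times the height -/
theorem rad_le (K : Type) [Field K] [NumberField K] (x : Fin 3 → K) (hs : x 0 + x 1 + x 2 = 0)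
    (hne : x 0 * x 1 * x 2 ≠ 0) : rad x ≤ 3 * height x := by
  classical
  have hd := fin_pos' (K := K)
  have a1 := Pool.Agent.Y728.AK.radT_eq (∅ : Finset (Pr K)) hs hne
  have a2 := Pool.Agent.Y728.AK.height3_eq hs hne
  have a3 := Pool.Agent.Y728.AK.rad_le_three (Pool.Agent.TH876.Loc.pt_of_triple hs hne)
  rw [Finset.sdiff_empty] at a1
  have e1 : Pool.Agent.Y728.radT ((∅ : Finset (Pr K)) : Set (Pr K)) x = rad x := by
    rw [rad_eq]
    simp only [Finset.coe_empty]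
    rfl
  have e2 : Pool.Agent.Y728.AK.height3 x = height x := rfl
  rw [e1] at a1
  rw [e2] at a2
  rw [← a1, ← a2] at a3
  have a4 : (Module.finrank ℚ K : ℝ) * rad x ≤ Module.finrank ℚ K * (3 * height x) := by linarith
  exact le_of_mul_le_mul_left a4 hd

theorem rpow_eq {X : ℝ} (hX : 0 < X) (a : ℝ) : X ^ a = Real.exp (a * Real.log X) := by
  rw [Real.rpow_def_of_pos hX, mul_comm]

/-- **Ordered by the height, upper bound.** -/
theorem byHeight_upper (K : Type) [Field K] [NumberField K] (κ δ : ℝ) (hκ : κ < 1) (hδ : 0 < δ) :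
    ∃ C : ℝ, 0 < C ∧ ∀ B t : ℝ, 1 ≤ B → 0 ≤ t → t ≤ κ * Real.log B →
      (Pts K fun h r => Real.exp h ≤ B ∧ r + t ≤ 3 * h).Finite ∧
      ((Pts K fun h r => Real.exp h ≤ B ∧ r + t ≤ 3 * h).ncard : ℝ) ≤
        C * B ^ (2 * (Module.finrank ℚ K : ℝ)) *
          Real.exp (-((1 - δ) * (Module.finrank ℚ K : ℝ) * t)) := by
  have hd := fin_pos' (K := K)
  obtain ⟨d, hdd⟩ : ∃ d : ℝ, d = Module.finrank ℚ K := ⟨_, rfl⟩
  rw [← hdd] at hd ⊢
  have hl := lossK_nonneg K
  obtain ⟨l, hll⟩ : ∃ l : ℝ, l = lossK K := ⟨_, rfl⟩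
  rw [← hll] at hl
  obtain ⟨C, hC, hdef⟩ := deficiency K κ δ hκ hδ
  obtain ⟨C', hC', hz⟩ := cellz K
  refine ⟨(C + C') * Real.exp (3 * l), by positivity, fun B t hB ht0 htB => ?_⟩
  have hB0 : 0 < B := by linarith
  have hlB : 0 ≤ Real.log B := Real.log_nonneg hB
  obtain ⟨X, hX⟩ : ∃ X, X = d * Real.log B := ⟨_, rfl⟩
  have hX0 : 0 ≤ X := by rw [hX]; positivity
  apply transfer_upper
  intro F hF
  rw [← hdd, ← hll] at hF
  have hF' : ∀ y ∈ F, Pt y ∧ ht y ≤ X ∧ ∃ P : Fin 3 → Idl K, IsP ∅ y P ∧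
      tr P + d * t ≤ 3 * ht y + 3 * l := by
    intro y hy
    obtain ⟨hp, H, h1, h2, P, hP, h3, h4⟩ := hF y hy
    have h5 : H / d ≤ Real.log B := (Real.le_log_iff_exp_le hB0).2 h3
    rw [div_le_iff₀ hd] at h5
    refine ⟨hp, by rw [hX]; linarith, P, hP, ?_⟩
    have h6 : tr P + d * t ≤ 3 * H := by
      have h7 := mul_le_mul_of_nonneg_left h4 hd.le
      have e1 : d * (tr P / d + t) = tr P + d * t := by field_simp
      have e2 : d * (3 * (H / d)) = 3 * H := by field_simp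
      rwa [e1, e2] at h7
    linarith
  have hBp : B ^ (2 * d) = Real.exp (2 * X) := by
    rw [rpow_eq hB0, hX]; ring_nf
  rw [hBp]
  have hδt : (1 - δ) * (3 * l) ≤ 3 * l := by nlinarith
  rcases le_or_gt (3 * l) (d * t) with h | h
  · have h1 := hdef X (d * t - 3 * l) F hX0 (by linarith) (by
      rw [hX]
      have := mul_le_mul_of_nonneg_left htB hd.le
      nlinarith) (by
      intro y hy
      obtain ⟨hp, h2, P, hP, h3⟩ := hF' y hy
      exact ⟨hp, h2, P, hP, by linarith⟩)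
    refine h1.trans ?_
    have h2 : Real.exp (2 * X - (1 - δ) * (d * t - 3 * l)) ≤
        Real.exp (3 * l) * Real.exp (2 * X) * Real.exp (-((1 - δ) * d * t)) := by
      rw [← Real.exp_add, ← Real.exp_add]
      apply Real.exp_le_exp.2
      nlinarith
    calc C * Real.exp (2 * X - (1 - δ) * (d * t - 3 * l))
        ≤ (C + C') * (Real.exp (3 * l) * Real.exp (2 * X) * Real.exp (-((1 - δ) * d * t))) :=
          mul_le_mul (by linarith) h2 (Real.exp_pos _).le (by positivity)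
      _ = _ := by ring
  · have h1 := hz X F hX0 fun y hy => ⟨(hF' y hy).1, (hF' y hy).2.1⟩
    refine h1.trans ?_
    have h2 : Real.exp (2 * X) ≤
        Real.exp (3 * l) * Real.exp (2 * X) * Real.exp (-((1 - δ) * d * t)) := by
      rw [← Real.exp_add, ← Real.exp_add]
      apply Real.exp_le_exp.2
      have h3 : (1 - δ) * (d * t) ≤ 1 * (d * t) :=
        mul_le_mul_of_nonneg_right (by linarith) (by positivity)
      nlinarith
    calc C' * Real.exp (2 * X)
        ≤ (C + C') * (Real.exp (3 * l) * Real.exp (2 * X) * Real.exp (-((1 - δ) * d * t))) :=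
          mul_le_mul (by linarith) h2 (Real.exp_pos _).le (by positivity)
      _ = _ := by ring

theorem byHeight_finite (K : Type) [Field K] [NumberField K] (B t : ℝ) (ht0 : 0 ≤ t) :
    (Pts K fun h r => Real.exp h ≤ B ∧ r + t ≤ 3 * h).Finite := by
  obtain ⟨C, -, h⟩ := byHeight_upper K 0 1 one_pos one_pos
  refine (h (max B 1) 0 (le_max_right _ _) le_rfl (by rw [zero_mul])).1.subset ?_
  refine Pts_mono K fun a b h => ⟨h.1.trans (le_max_left _ _), ?_⟩
  linarith [h.2]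

/-- **Ordered by the height, lower bound.** -/
theorem byHeight_lower (K : Type) [Field K] [NumberField K] :
    ∃ c C : ℝ, 0 < c ∧ 0 < C ∧ ∀ B t : ℝ, 1 ≤ B → 0 ≤ t → t + C ≤ Real.log B →
      c * B ^ (2 * (Module.finrank ℚ K : ℝ)) * Real.exp (-((Module.finrank ℚ K : ℝ) * t)) ≤
      ((Pts K fun h r => Real.exp h ≤ B ∧ r + t ≤ 3 * h).ncard : ℝ) := by
  have hd := fin_pos' (K := K)
  obtain ⟨d, hdd⟩ : ∃ d : ℝ, d = Module.finrank ℚ K := ⟨_, rfl⟩
  rw [← hdd] at hd ⊢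
  have hl := lossK_nonneg K
  obtain ⟨l, hll⟩ : ∃ l : ℝ, l = lossK K := ⟨_, rfl⟩
  rw [← hll] at hl
  obtain ⟨c, C, hc, hC, hlow⟩ := lower K
  refine ⟨c * Real.exp (-(2 * l)), (C + l) / d, by positivity, by positivity,
    fun B t hB ht0 htB => ?_⟩
  have hB0 : 0 < B := by linarith
  have h0 : d * (t + (C + l) / d) ≤ d * Real.log B := mul_le_mul_of_nonneg_left htB hd.le
  have e0 : d * (t + (C + l) / d) = d * t + C + l := by field_simp; ring
  rw [e0] at h0
  obtain ⟨F, hF, hcard⟩ := hlow (d * Real.log B - l) (d * t) (by positivity) (by linarith)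
  have h1 := transfer_lower (fun h r => Real.exp h ≤ B ∧ r + t ≤ 3 * h)
    (byHeight_finite K B t ht0) F (by
    intro y hy
    obtain ⟨hp, h2, P, hP, h3⟩ := hF y hy
    refine ⟨hp, P, hP, fun H g1 g2 => ?_⟩
    rw [← hdd]
    rw [← hll] at g2
    constructor
    · rw [← Real.le_log_iff_exp_le hB0, div_le_iff₀ hd]
      linarith
    · have e1 : tr P / d + t = (tr P + d * t) / d := by field_simp
      have e2 : 3 * (H / d) = (3 * H) / d := by ring
      rw [e1, e2]
      exact div_le_div_of_nonneg_right (by linarith) hd.le)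
  refine le_trans (le_of_eq ?_) (hcard.trans h1)
  rw [rpow_eq hB0, mul_assoc, mul_assoc, ← Real.exp_add, ← Real.exp_add]
  congr 2
  ring

/-- all points with `tr ≤ R` -/
theorem all_upper (K : Type) [Field K] [NumberField K] : ∃ C : ℝ, 0 < C ∧
    ∀ (R : ℝ) (F : Finset K), 0 ≤ R →
      (∀ x ∈ F, Pt x ∧ ∃ P : Fin 3 → Idl K, IsP ∅ x P ∧ tr P ≤ R) →
      (F.card : ℝ) ≤ C * Real.exp (2 / 3 * R) := by
  classical
  obtain ⟨ν, C, hν, hC, h1⟩ := radical_upper K (δ := 1) one_pos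
  obtain ⟨C', hC', hz⟩ := cellz K
  refine ⟨2 * C + C', by positivity, fun R F hR hF => ?_⟩
  have hsplit : (F.card : ℝ) = ((#{x ∈ F | ht x ≤ R / 3} : ℕ) : ℝ) +
      ((#{x ∈ F | ¬ ht x ≤ R / 3} : ℕ) : ℝ) := by
    exact_mod_cast (Finset.card_filter_add_card_filter_not _).symm
  have k1 : ((#{x ∈ F | ht x ≤ R / 3} : ℕ) : ℝ) ≤ C' * Real.exp (2 / 3 * R) := by
    refine (hz (R / 3) _ (by positivity) fun x hx => ?_).trans (le_of_eq ?_)
    · rw [mem_filter] at hx
      exact ⟨(hF x hx.1).1, hx.2⟩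
    · congr 2
      ring
  have k2 : ((#{x ∈ F | ¬ ht x ≤ R / 3} : ℕ) : ℝ) ≤ 2 * C * Real.exp (2 / 3 * R) := by
    refine (h1 R 0 _ hR le_rfl fun x hx => ?_).trans ?_
    · rw [mem_filter] at hx
      obtain ⟨hp, P, hP, hr⟩ := hF x hx.1
      refine ⟨hp, P, hP, hr, ?_⟩
      have := not_le.1 hx.2
      linarith
    · rw [mul_zero, sub_zero]
      have h2 : Real.exp ((2 / 3 - ν) * R) ≤ Real.exp (2 / 3 * R) := by
        apply Real.exp_le_exp.2
        have : 0 ≤ ν * R := by positivity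
        linarith
      nlinarith
  rw [hsplit]
  linarith

/-- with a slack `A` -/
theorem slack_upper (K : Type) [Field K] [NumberField K] {δ A : ℝ} (hδ : 0 < δ) (hA : 0 ≤ A) :
    ∃ ν C : ℝ, 0 < ν ∧ 0 < C ∧ ∀ (R t : ℝ) (F : Finset K), 0 ≤ R → 0 ≤ t →
      (∀ x ∈ F, Pt x ∧ ∃ P : Fin 3 → Idl K, IsP ∅ x P ∧ tr P ≤ R ∧ tr P + t ≤ 3 * ht x + A) →
      (F.card : ℝ) ≤ C * (Real.exp (2 / 3 * R - (1 / 3 - δ) * t) + Real.exp ((2 / 3 - ν) * R)) := by
  obtain ⟨ν, C, hν, hC, h1⟩ := radical_upper K hδ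
  obtain ⟨C', hC', h2⟩ := all_upper K
  refine ⟨ν, (C + C') * Real.exp A, hν, by positivity, fun R t F hR ht0 hF => ?_⟩
  have hE : 1 ≤ Real.exp A := Real.one_le_exp hA
  rcases le_or_gt A t with h | h
  · refine (h1 R (t - A) F hR (by linarith) fun x hx => ?_).trans ?_
    · obtain ⟨hp, P, hP, hr, hr'⟩ := hF x hx
      exact ⟨hp, P, hP, hr, by linarith⟩
    · have e1 : Real.exp (2 / 3 * R - (1 / 3 - δ) * (t - A)) ≤
          Real.exp A * Real.exp (2 / 3 * R - (1 / 3 - δ) * t) := by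
        rw [← Real.exp_add]
        apply Real.exp_le_exp.2
        nlinarith
      have e2 : Real.exp ((2 / 3 - ν) * R) ≤ Real.exp A * Real.exp ((2 / 3 - ν) * R) :=
        le_mul_of_one_le_left (Real.exp_pos _).le hE
      calc C * (Real.exp (2 / 3 * R - (1 / 3 - δ) * (t - A)) + Real.exp ((2 / 3 - ν) * R))
          ≤ C * (Real.exp A * Real.exp (2 / 3 * R - (1 / 3 - δ) * t) +
            Real.exp A * Real.exp ((2 / 3 - ν) * R)) :=
            mul_le_mul_of_nonneg_left (add_le_add e1 e2) hC.le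
        _ = C * (Real.exp A * (Real.exp (2 / 3 * R - (1 / 3 - δ) * t) +
            Real.exp ((2 / 3 - ν) * R))) := by ring
        _ ≤ (C + C') * (Real.exp A * (Real.exp (2 / 3 * R - (1 / 3 - δ) * t) +
            Real.exp ((2 / 3 - ν) * R))) :=
            mul_le_mul_of_nonneg_right (by linarith) (by positivity)
        _ = _ := by ring
  · refine (h2 R F hR fun x hx => ?_).trans ?_
    · obtain ⟨hp, P, hP, hr, -⟩ := hF x hx
      exact ⟨hp, P, hP, hr⟩
    · have e1 : Real.exp (2 / 3 * R) ≤ Real.exp A * Real.exp (2 / 3 * R - (1 / 3 - δ) * t) := by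
        rw [← Real.exp_add]
        apply Real.exp_le_exp.2
        have : (1 / 3 - δ) * t ≤ 1 * t := mul_le_mul_of_nonneg_right (by linarith) ht0
        linarith
      calc C' * Real.exp (2 / 3 * R)
          ≤ C' * (Real.exp A * Real.exp (2 / 3 * R - (1 / 3 - δ) * t)) :=
            mul_le_mul_of_nonneg_left e1 hC'.le
        _ ≤ (C + C') * (Real.exp A * (Real.exp (2 / 3 * R - (1 / 3 - δ) * t) +
            Real.exp ((2 / 3 - ν) * R))) := by
            apply mul_le_mul (by linarith) _ (by positivity) (by positivity)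
            apply mul_le_mul_of_nonneg_left _ (by positivity)
            linarith [Real.exp_pos ((2 / 3 - ν) * R)]
        _ = _ := by ring

/-- **Ordered by the radical, upper bound.** -/
theorem byRadical_upper (K : Type) [Field K] [NumberField K] {δ : ℝ} (hδ : 0 < δ) :
    ∃ ν C : ℝ, 0 < ν ∧ 0 < C ∧ ∀ X u : ℝ, 1 ≤ X → 0 ≤ u →
      (Pts K fun h r => Real.exp r ≤ X ∧ r / 3 + u ≤ h).Finite ∧
      ((Pts K fun h r => Real.exp r ≤ X ∧ r / 3 + u ≤ h).ncard : ℝ) ≤
        C * X ^ (2 / 3 * (Module.finrank ℚ K : ℝ)) *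
          (Real.exp (-((1 - δ) * (Module.finrank ℚ K : ℝ) * u)) + X ^ (-ν)) := by
  have hd := fin_pos' (K := K)
  obtain ⟨d, hdd⟩ : ∃ d : ℝ, d = Module.finrank ℚ K := ⟨_, rfl⟩
  rw [← hdd] at hd ⊢
  have hl := lossK_nonneg K
  obtain ⟨l, hll⟩ : ∃ l : ℝ, l = lossK K := ⟨_, rfl⟩
  rw [← hll] at hl
  obtain ⟨ν, C, hν, hC, h1⟩ := slack_upper K (δ := δ / 3) (A := 3 * l) (by positivity)
    (by positivity)
  refine ⟨ν * d, C, by positivity, hC, fun X u hX hu => ?_⟩
  have hX0 : 0 < X := by linarith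
  apply transfer_upper
  intro F hF
  rw [← hdd, ← hll] at hF
  refine (h1 (d * Real.log X) (3 * d * u) F (mul_nonneg hd.le (Real.log_nonneg hX))
    (by positivity) fun y hy => ?_).trans (le_of_eq ?_)
  · obtain ⟨hp, H, g1, g2, P, hP, g3, g4⟩ := hF y hy
    have h5 : tr P / d ≤ Real.log X := (Real.le_log_iff_exp_le hX0).2 g3
    rw [div_le_iff₀ hd] at h5
    refine ⟨hp, P, hP, by linarith, ?_⟩
    have h7 := mul_le_mul_of_nonneg_left g4 (by positivity : 0 ≤ 3 * d)
    have e1 : 3 * d * (tr P / d / 3 + u) = tr P + 3 * d * u := by field_simp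
    have e2 : 3 * d * (H / d) = 3 * H := by field_simp
    rw [e1, e2] at h7
    linarith
  · rw [rpow_eq hX0, rpow_eq hX0, mul_assoc C, mul_add (Real.exp _), ← Real.exp_add, ← Real.exp_add]
    congr 3
    · ring
    · ring

/-- all points ordered by the radical, upper bound -/
theorem byRadical_all (K : Type) [Field K] [NumberField K] :
    ∃ C : ℝ, 0 < C ∧ ∀ X : ℝ, 1 ≤ X →
      (Pts K fun _ r => Real.exp r ≤ X).Finite ∧
      ((Pts K fun _ r => Real.exp r ≤ X).ncard : ℝ) ≤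
        C * X ^ (2 / 3 * (Module.finrank ℚ K : ℝ)) := by
  have hd := fin_pos' (K := K)
  obtain ⟨d, hdd⟩ : ∃ d : ℝ, d = Module.finrank ℚ K := ⟨_, rfl⟩
  rw [← hdd] at hd ⊢
  obtain ⟨C, hC, h1⟩ := all_upper K
  refine ⟨C, hC, fun X hX => ?_⟩
  have hX0 : 0 < X := by linarith
  apply transfer_upper
  intro F hF
  rw [← hdd] at hF
  refine (h1 (d * Real.log X) F (mul_nonneg hd.le (Real.log_nonneg hX)) fun y hy => ?_).trans
    (le_of_eq ?_)
  · obtain ⟨hp, H, g1, g2, P, hP, g3⟩ := hF y hy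
    have h5 : tr P / d ≤ Real.log X := (Real.le_log_iff_exp_le hX0).2 g3
    rw [div_le_iff₀ hd] at h5
    exact ⟨hp, P, hP, by linarith⟩
  · rw [rpow_eq hX0]
    congr 2
    ring

/-- **Ordered by the radical, lower bound.** -/
theorem byRadical_lower (K : Type) [Field K] [NumberField K] :
    ∃ c C : ℝ, 0 < c ∧ 0 < C ∧ ∀ X u : ℝ, 1 ≤ X → 0 ≤ u → u + C ≤ Real.log X / 6 →
      c * X ^ (2 / 3 * (Module.finrank ℚ K : ℝ)) * Real.exp (-((Module.finrank ℚ K : ℝ) * u)) ≤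
      ((Pts K fun h r => Real.exp r ≤ X ∧ r / 3 + u ≤ h).ncard : ℝ) := by
  have hd := fin_pos' (K := K)
  obtain ⟨d, hdd⟩ : ∃ d : ℝ, d = Module.finrank ℚ K := ⟨_, rfl⟩
  rw [← hdd] at hd ⊢
  obtain ⟨c, C, hc, hC, hlow⟩ := lower K
  obtain ⟨C', hC', hfin⟩ := byRadical_all K
  refine ⟨c, C / (2 * d), hc, by positivity, fun X u hX hu huX => ?_⟩
  have hX0 : 0 < X := by linarith
  have h0 : 6 * d * (u + C / (2 * d)) ≤ 6 * d * (Real.log X / 6) :=
    mul_le_mul_of_nonneg_left huX (by positivity)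
  have e0 : 6 * d * (u + C / (2 * d)) = 6 * d * u + 3 * C := by field_simp; ring
  have e0' : 6 * d * (Real.log X / 6) = d * Real.log X := by ring
  rw [e0, e0'] at h0
  obtain ⟨F, hF, hcard⟩ := hlow ((d * Real.log X + 3 * d * u) / 3) (3 * d * u) (by positivity)
    (by linarith)
  have h1 := transfer_lower (fun h r => Real.exp r ≤ X ∧ r / 3 + u ≤ h)
    ((hfin X hX).1.subset (Pts_mono K fun a b h => h.1)) F (by
    intro y hy
    obtain ⟨hp, h2, P, hP, h3⟩ := hF y hy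
    refine ⟨hp, P, hP, fun H g1 g2 => ?_⟩
    rw [← hdd]
    constructor
    · rw [← Real.le_log_iff_exp_le hX0, div_le_iff₀ hd]
      linarith
    · have e1 : tr P / d / 3 + u = (tr P + 3 * d * u) / (3 * d) := by field_simp
      have e2 : H / d = (3 * H) / (3 * d) := by field_simp
      rw [e1, e2]
      exact div_le_div_of_nonneg_right (by linarith) (by positivity))
  refine le_trans (le_of_eq ?_) (hcard.trans h1)
  rw [rpow_eq hX0, mul_assoc, ← Real.exp_add]
  congr 2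
  ring

/-- **Almost all points.** -/
theorem almost_all (K : Type) [Field K] [NumberField K] (η : ℝ) (hη : 0 < η) :
    ∃ U X₀ : ℝ, ∀ X : ℝ, X₀ ≤ X →
      ((Pts K fun h r => Real.exp r ≤ X ∧ r / 3 + U < h).ncard : ℝ) ≤
        η * ((Pts K fun _ r => Real.exp r ≤ X).ncard : ℝ) := by
  have hd := fin_pos' (K := K)
  obtain ⟨d, hdd⟩ : ∃ d : ℝ, d = Module.finrank ℚ K := ⟨_, rfl⟩
  obtain ⟨ν, C, hν, hC, hup⟩ := byRadical_upper K (δ := 1 / 2) (by norm_num)
  obtain ⟨c, C₁, hc, hC₁, hlo⟩ := byRadical_lower K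
  obtain ⟨C', hC', hfin⟩ := byRadical_all K
  rw [← hdd] at hd
  simp only [← hdd] at hup hlo
  -- choice of `U`
  obtain ⟨U, hU0, hU⟩ : ∃ U : ℝ, 0 ≤ U ∧ Real.exp (-((1 - 1 / 2) * d * U)) ≤ η * c / (2 * C) := by
    have h1 : Tendsto (fun U : ℝ => Real.exp (-((1 - 1 / 2) * d * U))) atTop (𝓝 0) := by
      apply Real.tendsto_exp_atBot.comp
      apply tendsto_neg_atTop_atBot.comp
      exact tendsto_id.const_mul_atTop (by positivity)
    have h2 : 0 < η * c / (2 * C) := by positivity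
    obtain ⟨U, h3, h4⟩ := ((h1.eventually (gt_mem_nhds h2)).and (eventually_ge_atTop 0)).exists
    exact ⟨U, h4, h3.le⟩
  have h1 : Tendsto (fun X : ℝ => X ^ (-ν)) atTop (𝓝 0) := tendsto_rpow_neg_atTop hν
  have h2 : 0 < η * c / (2 * C) := by positivity
  obtain ⟨X₁, hX₁⟩ := eventually_atTop.1 ((h1.eventually (gt_mem_nhds h2)).and
    ((eventually_ge_atTop 1).and (Real.tendsto_log_atTop.eventually_ge_atTop (6 * C₁))))
  refine ⟨U, X₁, fun X hX => ?_⟩
  obtain ⟨a1, a2, a3⟩ := hX₁ X hX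
  have hX0 : 0 < X := by linarith
  have b1 : ((Pts K fun h r => Real.exp r ≤ X ∧ r / 3 + U < h).ncard : ℝ) ≤
      ((Pts K fun h r => Real.exp r ≤ X ∧ r / 3 + U ≤ h).ncard : ℝ) := by
    have hs : (Pts K fun h r => Real.exp r ≤ X ∧ r / 3 + U < h) ⊆
        (Pts K fun h r => Real.exp r ≤ X ∧ r / 3 + U ≤ h) :=
      Pts_mono K fun a b h => ⟨h.1, h.2.le⟩
    exact_mod_cast Set.ncard_le_ncard hs (hup X U a2 hU0).1
  have b2 := (hup X U a2 hU0).2
  have b3 := hlo X 0 a2 le_rfl (by linarith)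
  rw [mul_zero, neg_zero, Real.exp_zero, mul_one] at b3
  have b4 : ((Pts K fun h r => Real.exp r ≤ X ∧ r / 3 + 0 ≤ h).ncard : ℝ) ≤
      ((Pts K fun _ r => Real.exp r ≤ X).ncard : ℝ) := by
    have hs : (Pts K fun h r => Real.exp r ≤ X ∧ r / 3 + 0 ≤ h) ⊆
        (Pts K fun _ r => Real.exp r ≤ X) := Pts_mono K fun a b h => h.1
    exact_mod_cast Set.ncard_le_ncard hs (hfin X a2).1
  have hp : 0 < X ^ (2 / 3 * d) := Real.rpow_pos_of_pos hX0 _
  have b5 : C * X ^ (2 / 3 * d) * (Real.exp (-((1 - 1 / 2) * d * U)) + X ^ (-ν)) ≤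
      η * (c * X ^ (2 / 3 * d)) := by
    have b6 : Real.exp (-((1 - 1 / 2) * d * U)) + X ^ (-ν) ≤ η * c / C := by
      have : η * c / C = η * c / (2 * C) + η * c / (2 * C) := by field_simp; ring
      linarith
    calc C * X ^ (2 / 3 * d) * (Real.exp (-((1 - 1 / 2) * d * U)) + X ^ (-ν))
        ≤ C * X ^ (2 / 3 * d) * (η * c / C) := mul_le_mul_of_nonneg_left b6 (by positivity)
      _ = _ := by field_simp
  calc _ ≤ _ := b1
    _ ≤ _ := b2
    _ ≤ _ := b5
    _ ≤ _ := mul_le_mul_of_nonneg_left (b3.trans b4) hη.le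

end Pool.Agent.KS6_64.RO
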