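import Pool.Agent.KS6_64.RO.Cell

/-!
# Many points with `3 ht - tr ≥ t`
-/

set_option autoImplicit false

namespace Pool.Agent.KS6_64.RO

open NumberField IsDedekindDomain Finset Filter Topology Pool.Agent.H691R3 Pool.Agent.W223.AK
open Pool.Agent.N906.RS Pool.Agent.N427.RS

/-- **Many points with `3 ht - tr ≥ t`.** -/
theorem lower (K : Type) [Field K] [NumberField K] : ∃ c C : ℝ, 0 < c ∧ 0 < C ∧
    ∀ X t : ℝ, 0 ≤ t → t + C ≤ X → ∃ F : Finset K,
      (∀ x ∈ F, Pt x ∧ ht x ≤ X ∧ ∃ P : Fin 3 → Idl K, IsP ∅ x P ∧ tr P + t ≤ 3 * ht x) ∧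
      c * Real.exp (2 * X - t) ≤ F.card := by
  classical
  obtain ⟨c₁, c, C, hc₁, hc, hC, hlow⟩ := low_all K
  obtain ⟨q, hq⟩ := exists_prime (win_all K) hc₁
  obtain ⟨lq, hlq⟩ : ∃ lq, lq = Real.log (Nv q) := ⟨_, rfl⟩
  have hNq : 1 < Nv q := Nv_one_lt q
  have hlq0 : 0 < lq := by rw [hlq]; exact Real.log_pos hNq
  obtain ⟨S, hS⟩ : ∃ S, S = 3 * |cS (∅ : Finset (Pr K))| := ⟨_, rfl⟩
  have hS0 : 0 ≤ S := by rw [hS]; positivity
  have hSc : 3 * cS (∅ : Finset (Pr K)) ≤ S := by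
    rw [hS]; exact mul_le_mul_of_nonneg_left (le_abs_self _) (by norm_num)
  obtain ⟨c', hc'⟩ : ∃ c', c' = c * Real.exp (-(S + 2 * lq)) := ⟨_, rfl⟩
  have hc'0 : 0 < c' := by rw [hc']; positivity
  obtain ⟨A, hA⟩ : ∃ A, A = |Real.log (c' / (2 * C))| + 1 := ⟨_, rfl⟩
  have hA0 : 0 < A := by rw [hA]; positivity
  refine ⟨c' / 2, A, by positivity, hA0, fun X t ht0 htX => ?_⟩
  have hX : 0 ≤ X := by linarith
  obtain ⟨j, hj⟩ : ∃ j : ℕ, j = ⌈(t + S) / lq⌉₊ := ⟨_, rfl⟩
  have hj1 : t + S ≤ j * lq := by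
    rw [← div_le_iff₀ hlq0, hj]
    exact Nat.le_ceil _
  have hj2 : (j : ℝ) * lq ≤ t + S + lq := by
    have h1 : (j : ℝ) < (t + S) / lq + 1 := by
      rw [hj]; exact Nat.ceil_lt_add_one (by positivity)
    have h2 : (j : ℝ) * lq ≤ ((t + S) / lq + 1) * lq := mul_le_mul_of_nonneg_right h1.le hlq0.le
    rw [add_mul, div_mul_cancel₀ _ hlq0.ne', one_mul] at h2
    exact h2
  have hE : PC (0 : Fin 3 → Idl K) := fun l l' _ v => Or.inl rfl
  have hq0 : ∀ l, (0 : Fin 3 → Idl K) l q = 0 := fun _ => rfl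
  have hr0 : rsum (0 : Fin 3 → Idl K) = 0 := by simp [rsum]
  have ht0' : tl (0 : Fin 3 → Idl K) = 0 := by simp [tl]
  have htr0 : tr (0 : Fin 3 → Idl K) = 0 := by simp [tr, rl]
  obtain ⟨F, hF, hcard⟩ := hlow X (Dq 0 q j) hX (PC_Dq hE hq0) (by
    have h := rsum_Dq (j := j) hq0
    rw [hr0, zero_add] at h
    exact h.trans hq)
  refine ⟨F, fun x hx => ?_, ?_⟩
  · obtain ⟨hp, hX', P, hP, hD⟩ := hF x hx
    refine ⟨hp, hX', P, hP, ?_⟩
    have hPe : P = pid x := isP_unique hP (pid_spec hp)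
    subst hPe
    have h1 := xs_Dq hq0 hD
    rw [ht0', zero_add, ← hlq] at h1
    have h2 : ∀ l, rl (pid x l) + len (xs (pid x l)) ≤ ht x + cS (∅ : Finset (Pr K)) := by
      intro l
      have h2 := len_le hp hP l
      have h3 := len_xs (pid x l)
      linarith
    have h4 : tr (pid x) + ∑ l, len (xs (pid x l)) ≤ 3 * (ht x + cS (∅ : Finset (Pr K))) := by
      unfold tr
      rw [← Finset.sum_add_distrib]
      refine (Finset.sum_le_sum fun l _ => h2 l).trans ?_
      rw [Finset.sum_const, Finset.card_univ, Fintype.card_fin, nsmul_eq_mul]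
      norm_num
    linarith
  · refine le_trans ?_ hcard
    rw [tl_Dq, ht0', htr0, zero_add, zero_add, ← hlq]
    push_cast
    have h1 : c' * Real.exp (2 * X - t) ≤ c * Real.exp (2 * X - ((j : ℝ) + 1) * lq) := by
      rw [hc', mul_assoc, ← Real.exp_add]
      apply mul_le_mul_of_nonneg_left _ hc.le
      apply Real.exp_le_exp.2
      linarith
    have h2 : C * Real.exp X ≤ c' / 2 * Real.exp (2 * X - t) := by
      have h3 : 0 < c' / (2 * C) := by positivity
      have h4 : -Real.log (c' / (2 * C)) ≤ X - t := by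
        have := neg_abs_le (Real.log (c' / (2 * C)))
        rw [hA] at htX
        linarith
      have h5 : 1 ≤ c' / (2 * C) * Real.exp (X - t) := by
        have h6 := Real.exp_le_exp.2 h4
        rw [Real.exp_neg, Real.exp_log h3] at h6
        calc (1 : ℝ) = c' / (2 * C) * (c' / (2 * C))⁻¹ := (mul_inv_cancel₀ h3.ne').symm
          _ ≤ _ := mul_le_mul_of_nonneg_left h6 h3.le
      have h7 : Real.exp (2 * X - t) = Real.exp (X - t) * Real.exp X := by
        rw [← Real.exp_add]; congr 1; ring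
      rw [h7]
      calc C * Real.exp X ≤ C * Real.exp X * (c' / (2 * C) * Real.exp (X - t)) :=
            le_mul_of_one_le_right (by positivity) h5
        _ = c' / 2 * (Real.exp (X - t) * Real.exp X) := by field_simp
    linarith

end Pool.Agent.KS6_64.RO
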