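import Pool.Agent.KS6_64.RO.Upper
import Pool.Agent.KS6_64.RO.Lower

/-!
# Points of the projective plane
-/

set_option autoImplicit false

namespace Pool.Agent.KS6_64.RO

open NumberField IsDedekindDomain Finset Filter Topology Pool.Agent.H691R3 Pool.Agent.W223.AK
open Pool.Agent.N906.RS Pool.Agent.N776.RS

section Defs

variable {K : Type} [Field K] [NumberField K]

/-- the height `h(P)` of the point `P` with coordinates `x` -/
noncomputable def height (x : Fin 3 → K) : ℝ :=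
  (∑ w : InfinitePlace K, (w.mult : ℝ) * Real.log (max (w (x 0)) (max (w (x 1)) (w (x 2)))) +
    ∑ᶠ v : HeightOneSpectrum (𝓞 K), Real.log
      (max (FinitePlace.mk v (x 0)) (max (FinitePlace.mk v (x 1)) (FinitePlace.mk v (x 2))))) /
    (Module.finrank ℚ K : ℝ)

/-- the radical of the point `P` with coordinates `x`: the sum of `log N(v) / d` over the primes `v` at
which the valuations of the coordinates are not all equal -/
noncomputable def rad (x : Fin 3 → K) : ℝ :=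
  (∑ᶠ (v : HeightOneSpectrum (𝓞 K)) (_ : ¬ (FinitePlace.mk v (x 0) = FinitePlace.mk v (x 1) ∧
        FinitePlace.mk v (x 1) = FinitePlace.mk v (x 2))),
    Real.log (Ideal.absNorm v.asIdeal : ℝ)) / (Module.finrank ℚ K : ℝ)

end Defs

/-- the points `P = (a : b : c)` over `K` with `a + b + c = 0` and `abc ≠ 0` whose height `h` and
radical `r` satisfy the condition `c h r` -/
def Pts (K : Type) [Field K] [NumberField K] (c : ℝ → ℝ → Prop) :
    Set (Projectivization K (Fin 3 → K)) :=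
  {P | ∃ (x : Fin 3 → K) (hx : x ≠ 0), P = Projectivization.mk K x hx ∧ x 0 + x 1 + x 2 = 0 ∧
    x 0 * x 1 * x 2 ≠ 0 ∧ c (height x) (rad x)}

theorem Pts_mono (K : Type) [Field K] [NumberField K] {c c' : ℝ → ℝ → Prop}
    (h : ∀ a b, c a b → c' a b) : Pts K c ⊆ Pts K c' := by
  rintro P ⟨x, hx, h1, h2, h3, h4⟩
  exact ⟨x, hx, h1, h2, h3, h _ _ h4⟩

section Transfer

variable {K : Type} [Field K] [NumberField K]

theorem fin_pos' : (0 : ℝ) < Module.finrank ℚ K := by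
  exact_mod_cast (Module.finrank_pos (R := ℚ) (M := K))

theorem height_eq (x : Fin 3 → K) : height x = H3 x / (Module.finrank ℚ K : ℝ) := rfl

theorem rad_eq (x : Fin 3 → K) : rad x = R3 ∅ x / (Module.finrank ℚ K : ℝ) := by
  unfold rad R3
  congr 1
  refine finsum_congr fun v => ?_
  refine finsum_congr_Prop ?_ fun _ => rfl
  simp

/-- the numbers belonging to the points -/
def Aff (c : ℝ → ℝ → Prop) : Set K :=
  {y | Projectivization.mk K (w3 y) (w3_ne y) ∈ Pts K c}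

theorem Pts_eq (c : ℝ → ℝ → Prop) :
    Pts K c = (fun y : K => Projectivization.mk K (w3 y) (w3_ne y)) '' Aff c := by
  ext P
  constructor
  · intro hP
    obtain ⟨x, hx, rfl, hs, hp, h1⟩ := id hP
    have hx1 : x 1 ≠ 0 := by
      intro h
      apply hp
      rw [h]
      ring
    have he : Projectivization.mk K (w3 (x 0 / x 1)) (w3_ne _) = Projectivization.mk K x hx := by
      rw [Projectivization.mk_eq_mk_iff']
      refine ⟨(x 1)⁻¹, ?_⟩
      funext i
      fin_cases i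
      · show (x 1)⁻¹ * x 0 = x 0 / x 1
        rw [div_eq_mul_inv, mul_comm]
      · show (x 1)⁻¹ * x 1 = 1
        exact inv_mul_cancel₀ hx1
      · show (x 1)⁻¹ * x 2 = -(x 0 / x 1 + 1)
        have : x 2 = -(x 0 + x 1) := by linear_combination hs
        rw [this]
        field_simp
    refine ⟨x 0 / x 1, ?_, he⟩
    show Projectivization.mk K (w3 (x 0 / x 1)) (w3_ne _) ∈ Pts K c
    rw [he]
    exact hP
  · rintro ⟨y, hy, rfl⟩
    exact hy

theorem Aff_spec {c : ℝ → ℝ → Prop} {y : K} (hy : y ∈ Aff (K := K) c) :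
    Pt y ∧ ∃ H : ℝ, ht y ≤ H ∧ H ≤ ht y + lossK K ∧ ∃ P : Fin 3 → Idl K, IsP ∅ y P ∧
      c (H / (Module.finrank ℚ K : ℝ)) (tr P / (Module.finrank ℚ K : ℝ)) := by
  obtain ⟨x, hx, he, hs, hp, h1⟩ := hy
  rw [Projectivization.mk_eq_mk_iff'] at he
  obtain ⟨a, ha⟩ := he
  have hx0 : x 0 ≠ 0 := fun h => hp (by rw [h]; ring)
  have hx1 : x 1 ≠ 0 := fun h => hp (by rw [h]; ring)
  have hx2 : x 2 ≠ 0 := fun h => hp (by rw [h]; ring)
  have e0 : a * x 0 = y := congrFun ha 0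
  have e1 : a * x 1 = 1 := congrFun ha 1
  have hd : x 0 / x 1 = y := by
    rw [← e0]
    have : a = (x 1)⁻¹ := eq_inv_of_mul_eq_one_left e1
    rw [this, div_eq_mul_inv, mul_comm]
  have hPt : Pt y := by
    constructor
    · rw [← hd]
      exact div_ne_zero hx0 hx1
    · rw [← hd]
      intro h
      apply hx2
      have h3 : x 0 + x 1 = 0 := by
        have h4 : (x 0 / x 1 + 1) * x 1 = 0 := by rw [h, zero_mul]
        rwa [add_mul, div_mul_cancel₀ _ hx1, one_mul] at h4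
      linear_combination hs - h3
  have hb := H3_bounds hx1 hs
  rw [hd] at hb
  obtain ⟨P, hP⟩ := exists_isP (∅ : Finset (Pr K)) hPt
  refine ⟨hPt, H3 x, hb.1, hb.2, P, hP, ?_⟩
  have hP' : IsP (∅ : Finset (Pr K)) (x 0 / x 1) P := by rwa [hd]
  have hR := R3_eq (T := (∅ : Set (Pr K))) (T' := (∅ : Finset (Pr K))) (fun v => by simp) hx1 hs hP'
  rw [height_eq, rad_eq, hR] at h1
  unfold tr
  rw [Fin.sum_univ_three]
  exact h1

theorem mem_Aff {c : ℝ → ℝ → Prop} {y : K} (hy : Pt y) {P : Fin 3 → Idl K} (hP : IsP ∅ y P)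
    (hc : ∀ H : ℝ, ht y ≤ H → H ≤ ht y + lossK K →
      c (H / (Module.finrank ℚ K : ℝ)) (tr P / (Module.finrank ℚ K : ℝ))) : y ∈ Aff (K := K) c := by
  have e1 : (w3 y) 1 = 1 := rfl
  have e0 : (w3 y) 0 = y := rfl
  have e2 : (w3 y) 2 = -(y + 1) := rfl
  have hs : w3 y 0 + w3 y 1 + w3 y 2 = 0 := by rw [e0, e1, e2]; ring
  have hx1 : w3 y 1 ≠ 0 := by rw [e1]; exact one_ne_zero
  have hd : w3 y 0 / w3 y 1 = y := by rw [e0, e1, div_one]
  have hb := H3_bounds hx1 hs
  rw [hd] at hb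
  have hP' : IsP (∅ : Finset (Pr K)) (w3 y 0 / w3 y 1) P := by rwa [hd]
  have hR := R3_eq (T := (∅ : Set (Pr K))) (T' := (∅ : Finset (Pr K))) (fun v => by simp) hx1 hs hP'
  refine ⟨w3 y, w3_ne y, rfl, hs, ?_, ?_⟩
  · rw [e0, e1, e2]
    exact mul_ne_zero (mul_ne_zero hy.1 one_ne_zero) (neg_ne_zero.mpr hy.2)
  · have h := hc _ hb.1 hb.2
    rw [height_eq, rad_eq, hR]
    unfold tr at h
    rwa [Fin.sum_univ_three] at h

/-- **Upper bounds.** -/
theorem transfer_upper (c : ℝ → ℝ → Prop) (B : ℝ)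
    (h : ∀ F : Finset K, (∀ y ∈ F, Pt y ∧ ∃ H : ℝ, ht y ≤ H ∧ H ≤ ht y + lossK K ∧
      ∃ P : Fin 3 → Idl K, IsP ∅ y P ∧
        c (H / (Module.finrank ℚ K : ℝ)) (tr P / (Module.finrank ℚ K : ℝ))) → (F.card : ℝ) ≤ B) :
    (Pts K c).Finite ∧ ((Pts K c).ncard : ℝ) ≤ B := by
  have hF : ∀ F : Finset K, (F : Set K) ⊆ Aff c → (F.card : ℝ) ≤ B := fun F hF =>
    h F fun x hx => Aff_spec (hF (Finset.mem_coe.2 hx))
  have hfin : (Aff (K := K) c).Finite := by
    by_contra hinf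
    obtain ⟨F, hF1, hF2⟩ := Set.Infinite.exists_subset_card_eq hinf (⌊B⌋₊ + 1)
    have h3 := hF F hF1
    rw [hF2] at h3
    push_cast at h3
    linarith [Nat.lt_floor_add_one B]
  rw [Pts_eq]
  refine ⟨hfin.image _, ?_⟩
  rw [Set.ncard_image_of_injective _ w3_inj, Set.ncard_eq_toFinset_card _ hfin]
  exact hF _ (by rw [Set.Finite.coe_toFinset])

/-- **Lower bounds.** -/
theorem transfer_lower (c : ℝ → ℝ → Prop) (hfin : (Pts K c).Finite) (F : Finset K)
    (h : ∀ y ∈ F, Pt y ∧ ∃ P : Fin 3 → Idl K, IsP ∅ y P ∧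
      ∀ H : ℝ, ht y ≤ H → H ≤ ht y + lossK K →
        c (H / (Module.finrank ℚ K : ℝ)) (tr P / (Module.finrank ℚ K : ℝ))) :
    (F.card : ℝ) ≤ ((Pts K c).ncard : ℝ) := by
  have hsub : (F : Set K) ⊆ Aff c := by
    intro y hy
    obtain ⟨hp, P, hP, hr⟩ := h y (Finset.mem_coe.1 hy)
    exact mem_Aff hp hP hr
  rw [Pts_eq] at hfin ⊢
  have hfin' : (Aff (K := K) c).Finite := hfin.of_finite_image w3_inj.injOn
  rw [Set.ncard_image_of_injective _ w3_inj, ← Set.ncard_coe_finset F]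
  exact_mod_cast Set.ncard_le_ncard hsub hfin'

end Transfer

end Pool.Agent.KS6_64.RO
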