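import Mathlib

/-!
# Asymptotics of the second order term
-/

set_option autoImplicit false

namespace Pool.Agent.KS6_64.RO

open Filter Topology

/-- the second order term -/
noncomputable def Sq (t : ℝ) : ℝ := √(24 * t / Real.log t)

theorem Sq_nonneg (t : ℝ) : 0 ≤ Sq t := Real.sqrt_nonneg _

/-- `log (d t + a) / log t → 1` -/
theorem log_ratio {d : ℝ} (hd : 0 < d) (a : ℝ) :
    Tendsto (fun t : ℝ => Real.log t / Real.log (d * t + a)) atTop (𝓝 1) := by
  have h1 : Tendsto (fun t : ℝ => Real.log (d + a / t)) atTop (𝓝 (Real.log d)) := by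
    have h2 : Tendsto (fun t : ℝ => d + a / t) atTop (𝓝 (d + 0)) :=
      tendsto_const_nhds.add (tendsto_const_nhds.div_atTop tendsto_id)
    rw [add_zero] at h2
    exact (Real.continuousAt_log hd.ne').tendsto.comp h2
  have h3 : Tendsto (fun t : ℝ => Real.log (d + a / t) / Real.log t) atTop (𝓝 0) :=
    h1.div_atTop Real.tendsto_log_atTop
  have h4 : Tendsto (fun t : ℝ => (1 + Real.log (d + a / t) / Real.log t)⁻¹) atTop (𝓝 1) := by
    have h5 := (tendsto_const_nhds (x := (1 : ℝ))).add h3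
    rw [add_zero] at h5
    have h6 := h5.inv₀ one_ne_zero
    rwa [inv_one] at h6
  refine h4.congr' ?_
  have e1 : ∀ᶠ t : ℝ in atTop, 0 < d * t + a := by
    have := (tendsto_id.const_mul_atTop hd).eventually_gt_atTop (-a)
    filter_upwards [this] with t ht
    simp only [id] at ht
    linarith
  filter_upwards [e1, eventually_gt_atTop (1 : ℝ)] with t h5 h6
  have h7 : 0 < Real.log t := Real.log_pos h6
  have h8 : 0 < t := by linarith
  have h9 : d * t + a = t * (d + a / t) := by field_simp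
  have h10 : 0 < d + a / t := by
    rw [h9] at h5
    exact (mul_pos_iff_of_pos_left h8).1 h5
  rw [h9, Real.log_mul h8.ne' h10.ne']
  have h11 : 1 + Real.log (d + a / t) / Real.log t =
      (Real.log t + Real.log (d + a / t)) / Real.log t := by field_simp
  rw [h11, inv_div]

/-- `Sq (d t + a)` and `√(24 d t / log t)` are asymptotically equal -/
theorem Sq_ratio {d : ℝ} (hd : 0 < d) (a : ℝ) :
    Tendsto (fun t : ℝ => Sq (d * t + a) / √(24 * (d * t) / Real.log t)) atTop (𝓝 1) := by
  have h1 : Tendsto (fun t : ℝ => 1 + a / (d * t)) atTop (𝓝 1) := by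
    have h2 : Tendsto (fun t : ℝ => 1 + a / (d * t)) atTop (𝓝 (1 + 0)) :=
      tendsto_const_nhds.add (tendsto_const_nhds.div_atTop (tendsto_id.const_mul_atTop hd))
    rwa [add_zero] at h2
  have h2 := (h1.mul (log_ratio hd a))
  rw [one_mul] at h2
  have h3 := (Real.continuous_sqrt.tendsto 1).comp h2
  rw [Real.sqrt_one] at h3
  refine h3.congr' ?_
  have e1 : ∀ᶠ t : ℝ in atTop, 1 < d * t + a := by
    have := (tendsto_id.const_mul_atTop hd).eventually_gt_atTop (1 - a)
    filter_upwards [this] with t ht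
    simp only [id] at ht
    linarith
  filter_upwards [e1, eventually_gt_atTop (1 : ℝ)] with t h5 h6
  have h7 : 0 < Real.log t := Real.log_pos h6
  have h8 : 0 < t := by linarith
  have h9 : 0 < Real.log (d * t + a) := Real.log_pos h5
  simp only [Function.comp_apply, Sq]
  rw [← Real.sqrt_div' _ (by positivity)]
  congr 1
  field_simp

/-- `log t` is small compared to `Sq t` -/
theorem log_small {c : ℝ} (hc : 0 < c) : ∀ᶠ t : ℝ in atTop, Real.log t ≤ c * Sq t := by
  have h1 := (Real.isLittleO_pow_log_id_atTop (n := 3)).def (c := 24 * c ^ 2) (by positivity)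
  filter_upwards [h1, eventually_gt_atTop (1 : ℝ)] with t h2 h3
  have h4 : 0 < Real.log t := Real.log_pos h3
  have h5 : 0 < t := by linarith
  rw [Real.norm_of_nonneg (by positivity), id, Real.norm_of_nonneg h5.le] at h2
  have h6 : Real.log t / c ≤ Sq t := by
    apply Real.le_sqrt_of_sq_le
    rw [le_div_iff₀ h4, div_pow, div_mul_eq_mul_div, div_le_iff₀ (by positivity)]
    calc Real.log t ^ 2 * Real.log t = Real.log t ^ 3 := by ring
      _ ≤ 24 * c ^ 2 * t := h2
      _ = 24 * t * c ^ 2 := by ring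
  rw [div_le_iff₀ hc] at h6
  linarith

theorem Sq_top : Tendsto Sq atTop atTop := by
  have h1 := log_small (c := 1) one_pos
  refine tendsto_atTop_mono' _ ?_ Real.tendsto_log_atTop
  filter_upwards [h1] with t ht
  linarith

/-- `Sq t` is small compared to `t` -/
theorem Sq_small {c : ℝ} (hc : 0 < c) : ∀ᶠ t : ℝ in atTop, Sq t ≤ c * t := by
  have h1 := Real.tendsto_log_atTop.eventually_ge_atTop (1 : ℝ)
  filter_upwards [h1, eventually_ge_atTop (24 / c ^ 2), eventually_gt_atTop (0 : ℝ)] with t h2 h3 h4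
  apply Real.sqrt_le_iff.2
  refine ⟨by positivity, ?_⟩
  rw [div_le_iff₀ (by positivity)] at h3
  calc 24 * t / Real.log t ≤ 24 * t / 1 := by gcongr
    _ ≤ (c * t) ^ 2 := by nlinarith

/-- shifts -/
theorem Sq_add {t : ℝ} (ht : 24 * 24 ^ 2 ≤ Real.log t) (ht1 : 1 < t) {s : ℝ} (hs : 0 ≤ s) :
    Sq (t + s) ≤ Sq t + (s + 1) / 24 := by
  have h1 : 0 < Real.log t := Real.log_pos ht1
  have h2 : Real.log t ≤ Real.log (t + s) := Real.log_le_log (by linarith) (by linarith)
  have h3 : 24 * (t + s) / Real.log (t + s) ≤ 24 * t / Real.log t + 24 * s / Real.log t := by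
    rw [← add_div]
    have : 24 * t + 24 * s = 24 * (t + s) := by ring
    rw [this]
    gcongr
  have h4 : 24 * s / Real.log t ≤ ((s + 1) / 24) ^ 2 := by
    rw [div_le_iff₀ h1]
    nlinarith [sq_nonneg (s - 1), mul_le_mul_of_nonneg_left ht (by positivity : 0 ≤ ((s + 1) / 24) ^ 2)]
  have h5 : 0 ≤ 24 * t / Real.log t := by positivity
  apply Real.sqrt_le_iff.2
  refine ⟨add_nonneg (Sq_nonneg _) (by positivity), ?_⟩
  have h6 : Sq t ^ 2 = 24 * t / Real.log t := Real.sq_sqrt h5
  have h7 := Sq_nonneg t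
  nlinarith [mul_nonneg h7 (by positivity : 0 ≤ (s + 1) / 24)]

/-- the parameter `u` -/
theorem param {r : ℕ} {A ε u₀ : ℝ} (hA : 0 < A) (hε : 0 < ε) (hu₀ : 0 < u₀) :
    ∃ t₀ : ℝ, 1 < t₀ ∧ ∀ t : ℝ, t₀ ≤ t → ∃ u : ℝ, 0 < u ∧ u < u₀ ∧ u ≤ 1 ∧
      A * (((1 - Real.exp (-u))⁻¹) ^ r * Real.exp (u * t + (1 + ε) * (3 * 1) / (u * Real.log (1 / u)))) ≤
        Real.exp ((1 + 2 * ε) * Sq t) := by
  have h1 := log_small (c := ε / (2 * ((r : ℝ) + 1))) (by positivity)
  have h2 := Sq_top.eventually_ge_atTop (2 * Real.log (A * 2 ^ r) / ε)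
  have h3 := Sq_small (c := 2 * min (u₀ / 2) 1) (by positivity)
  have h4 := Sq_top.eventually_ge_atTop 2
  have h5 := Real.tendsto_log_atTop.eventually_ge_atTop 6
  obtain ⟨t₀, ht₀⟩ := eventually_atTop.1 (h1.and (h2.and (h3.and (h4.and h5))))
  refine ⟨max t₀ 2, lt_max_of_lt_right (by norm_num), fun t ht => ?_⟩
  obtain ⟨g1, g2, g3, g4, g5⟩ := ht₀ t ((le_max_left _ _).trans ht)
  have ht2 : 2 ≤ t := (le_max_right _ _).trans ht
  have ht0 : 0 < t := by linarith
  obtain ⟨q, hq⟩ : ∃ q, q = Sq t / 2 := ⟨_, rfl⟩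
  have hS : Sq t = 2 * q := by rw [hq]; ring
  have hL : 0 < Real.log t := by linarith
  have hq1 : 1 ≤ q := by rw [hq]; linarith
  have hq2 : q ^ 2 = 6 * t / Real.log t := by
    have h6 : Sq t ^ 2 = 24 * t / Real.log t := Real.sq_sqrt (by positivity)
    rw [hS] at h6
    have : 24 * t / Real.log t = 4 * (6 * t / Real.log t) := by ring
    linarith
  obtain ⟨u, hu⟩ : ∃ u, u = q / t := ⟨_, rfl⟩
  have hu0 : 0 < u := by rw [hu]; positivity
  have hut : u * t = q := by rw [hu]; field_simp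
  have huS : u ≤ min (u₀ / 2) 1 := by
    rw [hu, div_le_iff₀ ht0]
    linarith
  have hu1 : u ≤ 1 := huS.trans (min_le_right _ _)
  have huu : u < u₀ := by
    have := huS.trans (min_le_left _ _)
    linarith
  refine ⟨u, hu0, huu, hu1, ?_⟩
  -- the logarithm of `1 / u`
  have hlog : Real.log t / 2 ≤ Real.log (1 / u) := by
    have h6 : t ≤ (1 / u) ^ 2 := by
      rw [hu, one_div_div, div_pow, hq2, div_div_eq_mul_div, le_div_iff₀ (by positivity)]
      nlinarith
    have h7 := Real.log_le_log ht0 h6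
    rw [Real.log_pow] at h7
    push_cast at h7
    linarith
  have hmain : (1 + ε) * (3 * 1) / (u * Real.log (1 / u)) ≤ (1 + ε) * q := by
    have h8 : 0 < u * Real.log (1 / u) := mul_pos hu0 (by linarith)
    rw [div_le_iff₀ h8]
    have h9 : q * (u * (Real.log t / 2)) = 3 := by
      rw [hu]
      have : q * (q / t * (Real.log t / 2)) = q ^ 2 * Real.log t / (2 * t) := by ring
      rw [this, hq2]
      field_simp
      norm_num
    have h10 : q * (u * (Real.log t / 2)) ≤ q * (u * Real.log (1 / u)) := by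
      gcongr
    nlinarith
  have hgeo : (1 - Real.exp (-u))⁻¹ ≤ 2 * t := by
    have h11 : u / 2 ≤ 1 - Real.exp (-u) := by
      have h12 := Real.exp_bound_div_one_sub_of_interval (x := u / 2) (by positivity) (by linarith)
      have h13 : Real.exp (-u) ≤ 1 / (1 + u) := by
        rw [Real.exp_neg, one_div]
        exact inv_anti₀ (by positivity) (by linarith [Real.add_one_le_exp u])
      have h14 : 1 / (1 + u) ≤ 1 - u / 2 := by
        rw [div_le_iff₀ (by positivity)]
        nlinarith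
      linarith
    have h15 : (1 - Real.exp (-u))⁻¹ ≤ (u / 2)⁻¹ := inv_anti₀ (by positivity) h11
    refine h15.trans ?_
    rw [hu, inv_div, div_div_eq_mul_div, div_le_iff₀ (by positivity)]
    nlinarith
  have hgeo0 : 0 ≤ (1 - Real.exp (-u))⁻¹ := by
    have : Real.exp (-u) < 1 := by rw [Real.exp_lt_one_iff]; linarith
    exact inv_nonneg.2 (by linarith)
  have hfac : A * ((1 - Real.exp (-u))⁻¹) ^ r ≤ Real.exp (ε * Sq t) := by
    have h16 : A * ((1 - Real.exp (-u))⁻¹) ^ r ≤ A * (2 * t) ^ r := by gcongr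
    refine h16.trans ?_
    have h17 : A * (2 * t) ^ r = Real.exp (Real.log (A * 2 ^ r) + r * Real.log t) := by
      rw [Real.exp_add, Real.exp_log (by positivity), Real.exp_nat_mul, Real.exp_log ht0, mul_pow]
      ring
    rw [h17]
    apply Real.exp_le_exp.2
    rw [div_le_iff₀ hε] at g2
    have h18 : (r : ℝ) * Real.log t ≤ ε / 2 * Sq t := by
      have h19 : (r : ℝ) * Real.log t ≤ ((r : ℝ) + 1) * (ε / (2 * ((r : ℝ) + 1)) * Sq t) := by
        apply mul_le_mul (by linarith) g1 hL.le (by positivity)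
      refine h19.trans (le_of_eq ?_)
      field_simp
    linarith
  rw [← mul_assoc]
  have h20 : Real.exp (u * t + (1 + ε) * (3 * 1) / (u * Real.log (1 / u))) ≤
      Real.exp ((1 + ε) * Sq t) := by
    apply Real.exp_le_exp.2
    rw [hut, hS]
    nlinarith
  calc A * ((1 - Real.exp (-u))⁻¹) ^ r *
        Real.exp (u * t + (1 + ε) * (3 * 1) / (u * Real.log (1 / u)))
      ≤ Real.exp (ε * Sq t) * Real.exp ((1 + ε) * Sq t) := by
        apply mul_le_mul hfac h20 (Real.exp_pos _).le (Real.exp_pos _).le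
    _ = _ := by rw [← Real.exp_add]; congr 1; ring

end Pool.Agent.KS6_64.RO
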