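import Pool.Agent.KS6_64.RO.Upper
import Pool.Agent.KS6_64.RO.SecAsy

/-!
# Many points with `3 ht - tr ≥ t`: the second order term, uniformly in `t`

The proof is that of the library's `Pool.Graph.R_pool_sql_team_seeded_63374d34.N427.RS_LO` with a
general `t` in the place of `κ X`.
-/

set_option autoImplicit false

namespace Pool.Agent.KS6_64.RO

open NumberField IsDedekindDomain Finset Filter Topology Pool.Agent.H691R3 Pool.Agent.W223.AK
open Pool.Agent.N906.RS Pool.Agent.N427.RS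

theorem tr_le' {K : Type} [Field K] [NumberField K] {x : K} {t : ℝ} (hx : Pt x)
    (hT : t + 3 * cS (∅ : Finset (Pr K)) ≤ ∑ l, len (xs (pid x l))) :
    tr (pid x) + t ≤ 3 * ht x := by
  have hP := pid_spec hx
  have h1 : ∀ l, rl (pid x l) + len (xs (pid x l)) ≤ ht x + cS (∅ : Finset (Pr K)) := by
    intro l
    have h2 := len_le hx hP l
    have h3 := len_xs (pid x l)
    linarith
  have h4 : tr (pid x) + ∑ l, len (xs (pid x l)) ≤ 3 * (ht x + cS (∅ : Finset (Pr K))) := by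
    unfold tr
    rw [← Finset.sum_add_distrib]
    refine (Finset.sum_le_sum fun l _ => h1 l).trans ?_
    rw [Finset.sum_const, Finset.card_univ, Fintype.card_fin, nsmul_eq_mul]
    norm_num
  linarith

/-- the comparison of the main terms -/
theorem cmp' {ε ε' : ℝ} (a C₀ : ℝ) (hε0 : 0 < ε) (hε1 : ε < 1)
    (hε' : ε' ≤ ε / 4) : ∀ᶠ t : ℝ in atTop,
    C₀ + (1 - ε) * Sq t ≤ (1 - ε') * √(24 * (t + a) / Real.log (t + a)) := by
  have h1 := (Sq_ratio one_pos a).eventually (lt_mem_nhds (show 1 - ε / 4 < 1 by linarith))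
  have h2 := Sq_top.eventually_ge_atTop (2 * C₀ / ε)
  filter_upwards [h1, h2, eventually_gt_atTop (1 : ℝ)] with t h3 h4 h5
  have h6 : 0 < √(24 * (1 * t) / Real.log t) := by
    apply Real.sqrt_pos.2
    have := Real.log_pos h5
    positivity
  rw [lt_div_iff₀ h6, one_mul] at h3
  have e1 : √(24 * t / Real.log t) = Sq t := rfl
  have e2 : Sq (t + a) = √(24 * (t + a) / Real.log (t + a)) := rfl
  rw [e1, e2] at h3
  rw [div_le_iff₀ hε0] at h4
  have h7 := Sq_nonneg t
  have h8 : (1 - ε') * ((1 - ε / 4) * Sq t) ≤ (1 - ε') * √(24 * (t + a) / Real.log (t + a)) :=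
    mul_le_mul_of_nonneg_left h3.le (by linarith)
  have h9 : (1 - ε / 2) * Sq t ≤ (1 - ε') * ((1 - ε / 4) * Sq t) := by
    rw [← mul_assoc]
    apply mul_le_mul_of_nonneg_right _ h7
    nlinarith
  linarith

/-- **Many points with `3 ht - tr ≥ t`, uniformly in `t`.** -/
theorem lo_unif (K : Type) [Field K] [NumberField K] {κ ε : ℝ} (hκ0 : 0 < κ) (hκ1 : κ < 1)
    (hε0 : 0 < ε) (hε1 : ε < 1) : ∃ t₀ : ℝ, 1 < t₀ ∧ ∀ X t : ℝ, t₀ ≤ t → t ≤ κ * X →
    ∃ F : Finset K,
      (∀ x ∈ F, Pt x ∧ ht x ≤ X ∧ ∃ P : Fin 3 → Idl K, IsP ∅ x P ∧ tr P + t ≤ 3 * ht x) ∧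
      Real.exp (2 * X - t + (1 - ε) * Sq t) ≤ F.card := by
  classical
  obtain ⟨C₁, hC₁, hcell⟩ := cell0 (cell_all K)
  obtain ⟨c₁, c, C₂, hc₁, hc, hC₂, hlow⟩ := low_all K
  obtain ⟨C₄, hC₄, hc1, hc2⟩ := cnt_all K
  have h3 := win_all K
  obtain ⟨q, hq⟩ := exists_prime h3 (half_pos hc₁)
  have hcS := cS_nonneg (∅ : Finset (Pr K))
  have hlq := log_Nv_pos q
  set cs := cS (∅ : Finset (Pr K)) with hcs
  set lq := Real.log (Nv q) with hlqd
  obtain ⟨ε', hε'0, hε'1, hε'2⟩ : ∃ ε' : ℝ, 0 < ε' ∧ ε' ≤ ε / 4 ∧ ε' ≤ (1 - κ) / 2 :=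
    ⟨min (ε / 4) ((1 - κ) / 2), lt_min (by linarith) (by linarith), min_le_left _ _,
      min_le_right _ _⟩
  obtain ⟨cw, hcw0, hcw1, hcw2⟩ : ∃ cw : ℝ, 0 < cw ∧ cw ≤ c₁ / 2 ∧ cw ≤ c / (4 * C₁) :=
    ⟨min (c₁ / 2) (c / (4 * C₁)), lt_min (by linarith) (by positivity), min_le_left _ _,
      min_le_right _ _⟩
  obtain ⟨Z₀, hZ₀, hwin⟩ := h3 ε' cw hε'0 (by linarith) hcw0
  set a := 3 * cs - 2 * lq with ha
  set B := 3 * cs + 2 * lq with hB
  set C₃ := C₂ + 2 * C₁ + 3 * C₁ * C₄ * Real.exp cs with hC₃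
  have hC₃0 : 0 < C₃ := by positivity
  obtain ⟨V₀, hV1, hVq, hVc⟩ : ∃ V₀ : ℝ, 1 ≤ V₀ ∧ Nv q ≤ V₀ ∧ 12 * C₁ * C₄ / c ≤ V₀ :=
    ⟨max (max 1 (Nv q)) (12 * C₁ * C₄ / c), (le_max_left _ _).trans (le_max_left _ _),
      (le_max_right _ _).trans (le_max_left _ _), le_max_right _ _⟩
  obtain ⟨t₁, ht₁⟩ := Filter.eventually_atTop.1 (cmp' a (B - Real.log (c / 4)) hε0 hε1 hε'1)
  obtain ⟨t₂, ht₂⟩ : ∃ t₂ : ℝ, t₂ = max (max (max t₁ (Z₀ - a)) (max (V₀ ^ 2 - a) (a / (1 - κ))))
    (max (2 * (B + Real.log (4 * C₃ / c)) / (1 - κ)) 2) := ⟨_, rfl⟩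
  refine ⟨t₂, ?_, fun X t htt htX => ?_⟩
  · rw [ht₂]
    exact lt_max_of_lt_right (lt_max_of_lt_right (by norm_num))
  have g1 : t₁ ≤ t := by
    refine le_trans ?_ htt
    rw [ht₂]
    exact (le_max_left _ _).trans ((le_max_left _ _).trans (le_max_left _ _))
  have f1 : Z₀ - a ≤ t := by
    refine le_trans ?_ htt
    rw [ht₂]
    exact (le_max_right _ _).trans ((le_max_left _ _).trans (le_max_left _ _))
  have f2 : V₀ ^ 2 - a ≤ t := by
    refine le_trans ?_ htt
    rw [ht₂]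
    exact (le_max_left _ _).trans ((le_max_right _ _).trans (le_max_left _ _))
  have f3 : a / (1 - κ) ≤ t := by
    refine le_trans ?_ htt
    rw [ht₂]
    exact (le_max_right _ _).trans ((le_max_right _ _).trans (le_max_left _ _))
  have f4 : 2 * (B + Real.log (4 * C₃ / c)) / (1 - κ) ≤ t := by
    refine le_trans ?_ htt
    rw [ht₂]
    exact (le_max_left _ _).trans (le_max_right _ _)
  have f6 : 2 ≤ t := by
    refine le_trans ?_ htt
    rw [ht₂]
    exact (le_max_right _ _).trans (le_max_right _ _)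
  have f5 := ht₁ t g1
  have h1κ : 0 < 1 - κ := by linarith
  rw [div_le_iff₀ h1κ] at f3 f4
  have hX0 : 0 < X := by
    by_contra h
    have : κ * X ≤ 0 := mul_nonpos_of_nonneg_of_nonpos hκ0.le (not_lt.1 h)
    linarith
  have htX' : t ≤ X := htX.trans (by nlinarith)
  have htX'' : t * (1 - κ) ≤ (1 - κ) * X := by nlinarith
  set Z := t + a with hZ
  have hZZ : Z₀ ≤ Z := by linarith
  have hZX : Z ≤ X := by linarith
  have hVZ : V₀ ≤ √Z := by
    apply Real.le_sqrt_of_sq_le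
    linarith
  obtain ⟨F, hF, hFs⟩ := hwin Z hZZ
  -- the exponents of `q`
  have hj : ∀ E : Fin 3 → Idl K, ∃ j : ℕ, E ∈ F → (t + 3 * cs ≤ tl E + j * lq ∧
      tl E + j * lq ≤ t + 3 * cs + lq) := by
    intro E
    refine ⟨⌈(t + 3 * cs - tl E) / lq⌉₊, fun hE => ?_⟩
    have h5 : tl E ≤ Z := (hF E hE).2.1
    have h6 : 0 ≤ (t + 3 * cs - tl E) / lq := by
      apply div_nonneg _ hlq.le
      linarith
    have h7 := Nat.le_ceil ((t + 3 * cs - tl E) / lq)
    have h8 := (Nat.ceil_lt_add_one h6).le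
    rw [div_le_iff₀ hlq] at h7
    have h9 : (⌈(t + 3 * cs - tl E) / lq⌉₊ : ℝ) * lq ≤
        ((t + 3 * cs - tl E) / lq + 1) * lq := by gcongr
    rw [add_mul, one_mul, div_mul_cancel₀ _ hlq.ne'] at h9
    constructor <;> linarith
  choose j hj using hj
  -- the points for `E`
  have hG : ∀ E : Fin 3 → Idl K, ∃ G : Finset K, E ∈ F →
      (∀ x ∈ G, Pt x ∧ ht x ≤ X ∧ tr (pid x) + t ≤ 3 * ht x ∧
        ∀ l v, √Z < Nv v → pid x l v - 1 = E l v) ∧
      c / 4 * Real.exp (2 * X - t - B - tr E) ≤ G.card := by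
    intro E
    by_cases hE : E ∈ F
    swap
    · exact ⟨∅, fun h => absurd h hE⟩
    obtain ⟨hPC, htl, htr, hrs, hsup⟩ := hF E hE
    obtain ⟨hj1, hj2⟩ := hj E hE
    have hq0 : ∀ l, E l q = 0 := by
      intro l
      by_contra h
      have := hsup l q (Finsupp.mem_support_iff.2 h)
      linarith
    have hrD : rsum (Dq E q (j E)) ≤ c₁ := by
      have := rsum_Dq (j := j E) hq0
      linarith
    obtain ⟨FE, hFE, hFEc⟩ := hlow X (Dq E q (j E)) (by linarith) (PC_Dq hPC hq0) hrD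
    have hFE' : ∀ x ∈ FE, Pt x ∧ ht x ≤ X ∧ ∀ l, Dq E q (j E) l ≤ pid x l := by
      intro x hx
      obtain ⟨g1, g2, P, hP, g3⟩ := hFE x hx
      refine ⟨g1, g2, ?_⟩
      rw [← isP_unique hP (pid_spec g1)]
      exact g3
    obtain ⟨G, hGF, hG1, hG2⟩ := per (V := √Z) hC₁ hcell hc1 hc2 (by linarith : (0 : ℝ) ≤ X)
      (hV1.trans hVZ) (hVq.trans hVZ) FE hFE'
    refine ⟨G, fun _ => ⟨fun x hx => ?_, ?_⟩⟩
    · obtain ⟨g1, g2, g3⟩ := hFE' x (hGF hx)
      refine ⟨g1, g2, tr_le' g1 ?_, hG1 x hx⟩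
      exact hj1.trans (xs_Dq hq0 g3)
    · set W := Real.exp (2 * X - tl (Dq E q (j E))) with hW
      have hW0 : 0 < W := Real.exp_pos _
      have htD : tl (Dq E q (j E)) ≤ t + B + tr E := by
        rw [tl_Dq]
        push_cast
        linarith
      have htr' : tr E ≤ ε' * X := htr.trans (by gcongr)
      have htr0 : 0 ≤ tr E := Finset.sum_nonneg fun l _ => rl_nonneg _
      -- the number of the primes
      have hom : (om E : ℝ) ≤ 2 * Real.exp X := by
        have g1 : (om E : ℝ) * Real.log 2 ≤ tr E := by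
          unfold om tr
          push_cast
          rw [Finset.sum_mul]
          refine Finset.sum_le_sum fun l _ => ?_
          unfold rl
          rw [← nsmul_eq_mul, ← Finset.sum_const]
          exact Finset.sum_le_sum fun v _ => log_two_le_log_Nv v
        have g2 : (1 : ℝ) / 2 ≤ Real.log 2 := by
          have := Real.log_two_gt_d9
          linarith
        have g3 : X ≤ Real.exp X := by
          have := Real.add_one_le_exp X
          linarith
        have g4 : (0 : ℝ) ≤ om E := Nat.cast_nonneg _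
        nlinarith
      have hexp2 : Real.exp ((X + cs) / 2) ≤ Real.exp cs * Real.exp X := by
        rw [← Real.exp_add, Real.exp_le_exp]
        linarith
      have hCW : C₃ * Real.exp X ≤ c / 4 * W := by
        have g1 : Real.exp (Real.log (4 * C₃ / c) + X) ≤ W := by
          rw [hW, Real.exp_le_exp]
          nlinarith
        rw [Real.exp_add, Real.exp_log (by positivity)] at g1
        calc C₃ * Real.exp X = c / 4 * (4 * C₃ / c * Real.exp X) := by field_simp
          _ ≤ c / 4 * W := by gcongr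
      have hA1 : C₁ * (W * rsum E) ≤ c / 4 * W := by
        calc C₁ * (W * rsum E) ≤ C₁ * (W * (c / (4 * C₁))) := by
              gcongr
              exact hrs.trans hcw2
          _ = c / 4 * W := by field_simp
      have hA2 : 3 * (C₁ * (W * (C₄ / √Z))) ≤ c / 4 * W := by
        have g1 : 0 < √Z := lt_of_lt_of_le (by linarith) hVZ
        have g2 : C₄ / √Z ≤ c / (12 * C₁) := by
          rw [div_le_div_iff₀ g1 (by positivity)]
          have g3 := hVc.trans hVZ
          rw [div_le_iff₀ hc] at g3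
          linarith
        calc 3 * (C₁ * (W * (C₄ / √Z))) ≤ 3 * (C₁ * (W * (c / (12 * C₁)))) := by gcongr
          _ = c / 4 * W := by field_simp; norm_num
      have hA3 : C₂ * Real.exp X + C₁ * om E + 3 * (C₁ * (C₄ * Real.exp ((X + cs) / 2))) ≤
          C₃ * Real.exp X := by
        have g1 : C₁ * om E ≤ C₁ * (2 * Real.exp X) := by gcongr
        have g2 : 3 * (C₁ * (C₄ * Real.exp ((X + cs) / 2))) ≤
            3 * (C₁ * (C₄ * (Real.exp cs * Real.exp X))) := by gcongr
        rw [hC₃]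
        calc _ ≤ C₂ * Real.exp X + C₁ * (2 * Real.exp X) +
              3 * (C₁ * (C₄ * (Real.exp cs * Real.exp X))) := by linarith
          _ = _ := by ring
      have hGc : c / 4 * W ≤ G.card := by
        have e6 : C₁ * (W * rsum E + om E) = C₁ * (W * rsum E) + C₁ * om E := by ring
        have e7 : 3 * (C₁ * (W * (C₄ / √Z) + C₄ * Real.exp ((X + cs) / 2))) =
            3 * (C₁ * (W * (C₄ / √Z))) + 3 * (C₁ * (C₄ * Real.exp ((X + cs) / 2))) := by ring
        rw [e6, e7] at hG2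
        linarith
      refine le_trans ?_ hGc
      have g1 : Real.exp (2 * X - t - B - tr E) ≤ W := by
        rw [hW, Real.exp_le_exp]
        linarith
      gcongr
  choose G hG using hG
  refine ⟨F.biUnion G, ?_, ?_⟩
  · intro x hx
    obtain ⟨E, hE, hxE⟩ := Finset.mem_biUnion.1 hx
    obtain ⟨g1, g2, g3, -⟩ := (hG E hE).1 x hxE
    exact ⟨g1, g2, pid x, pid_spec g1, g3⟩
  · have hdisj : ∀ E ∈ F, ∀ E' ∈ F, E ≠ E' → Disjoint (G E) (G E') := by
      intro E hE E' hE' hne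
      rw [Finset.disjoint_left]
      intro x hx hx'
      apply hne
      funext l
      ext v
      by_cases hv : √Z < Nv v
      · rw [← ((hG E hE).1 x hx).2.2.2 l v hv, ← ((hG E' hE').1 x hx').2.2.2 l v hv]
      · have g1 : E l v = 0 := by
          by_contra h
          exact hv ((hF E hE).2.2.2.2 l v (Finsupp.mem_support_iff.2 h))
        have g2 : E' l v = 0 := by
          by_contra h
          exact hv ((hF E' hE').2.2.2.2 l v (Finsupp.mem_support_iff.2 h))
        rw [g1, g2]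
    have hcard : ((F.biUnion G).card : ℝ) = ∑ E ∈ F, ((G E).card : ℝ) := by
      rw [Finset.card_biUnion hdisj]
      push_cast
      rfl
    rw [hcard]
    have g1 : c / 4 * Real.exp (2 * X - t - B) * ∑ E ∈ F, Real.exp (-tr E) ≤
        ∑ E ∈ F, ((G E).card : ℝ) := by
      rw [Finset.mul_sum]
      refine Finset.sum_le_sum fun E hE => le_trans (le_of_eq ?_) (hG E hE).2
      rw [mul_assoc, ← Real.exp_add]
      rfl
    refine le_trans ?_ g1
    have g2 : c / 4 * Real.exp (2 * X - t - B) * Real.exp ((1 - ε') * √(24 * Z / Real.log Z)) ≤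
        c / 4 * Real.exp (2 * X - t - B) * ∑ E ∈ F, Real.exp (-tr E) := by gcongr
    refine le_trans ?_ g2
    have g3 : c / 4 = Real.exp (Real.log (c / 4)) := (Real.exp_log (by positivity)).symm
    rw [g3, ← Real.exp_add, ← Real.exp_add, Real.exp_le_exp]
    linarith

end Pool.Agent.KS6_64.RO
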