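import Pool.Agent.KS6_64.RO.SecU
import Pool.Agent.KS6_64.RO.SecL
import Pool.Agent.KS6_64.RO.Final

/-!
# The second order term, in terms of the points
-/

set_option autoImplicit false

namespace Pool.Agent.KS6_64.RO

open NumberField IsDedekindDomain Finset Filter Topology Pool.Agent.H691R3 Pool.Agent.W223.AK
open Pool.Agent.N906.RS Pool.Agent.N776.RS

theorem sqrt_Sq {D : ℝ} (hD : 0 ≤ D) (t : ℝ) : √(24 * (D * t) / Real.log t) = √D * Sq t := by
  unfold Sq
  rw [← Real.sqrt_mul hD]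
  congr 1
  ring

theorem W_top {D : ℝ} (hD : 0 < D) : Tendsto (fun t : ℝ => √D * Sq t) atTop atTop :=
  Sq_top.const_mul_atTop (Real.sqrt_pos.2 hD)

theorem W_up {D ε : ℝ} (hD : 0 < D) (hε : 0 < ε) (hε1 : ε ≤ 1) (a C₀ : ℝ) :
    ∀ᶠ t : ℝ in atTop, C₀ + (1 + ε / 4) * Sq (D * t + a) ≤ (1 + ε) * (√D * Sq t) := by
  have h1 := (Sq_ratio hD a).eventually (gt_mem_nhds (show 1 < 1 + ε / 4 by linarith))
  have h2 := (W_top hD).eventually_ge_atTop (max (4 * C₀ / ε) 1)
  filter_upwards [h1, h2] with t h3 h4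
  rw [sqrt_Sq hD.le] at h3
  have h5 : 1 ≤ √D * Sq t := (le_max_right _ _).trans h4
  have h6 : 4 * C₀ / ε ≤ √D * Sq t := (le_max_left _ _).trans h4
  rw [div_lt_iff₀ (by linarith)] at h3
  rw [div_le_iff₀ hε] at h6
  have h7 : (1 + ε / 4) * Sq (D * t + a) ≤ (1 + ε / 4) * ((1 + ε / 4) * (√D * Sq t)) :=
    mul_le_mul_of_nonneg_left h3.le (by positivity)
  nlinarith [mul_nonneg (mul_nonneg hε.le (by linarith : 0 ≤ 1 - ε)) (by linarith : 0 ≤ √D * Sq t)]

theorem W_lo {D ε : ℝ} (hD : 0 < D) (hε : 0 < ε) (hε1 : ε ≤ 1) (a C₀ : ℝ) :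
    ∀ᶠ t : ℝ in atTop, (1 - ε) * (√D * Sq t) + C₀ ≤ (1 - ε / 4) * Sq (D * t + a) := by
  have h1 := (Sq_ratio hD a).eventually (lt_mem_nhds (show 1 - ε / 4 < 1 by linarith))
  have h2 := (W_top hD).eventually_ge_atTop (max (4 * C₀ / ε) 1)
  filter_upwards [h1, h2] with t h3 h4
  rw [sqrt_Sq hD.le] at h3
  have h5 : 1 ≤ √D * Sq t := (le_max_right _ _).trans h4
  have h6 : 4 * C₀ / ε ≤ √D * Sq t := (le_max_left _ _).trans h4
  rw [lt_div_iff₀ (by linarith)] at h3
  rw [div_le_iff₀ hε] at h6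
  have h7 : (1 - ε / 4) * ((1 - ε / 4) * (√D * Sq t)) ≤ (1 - ε / 4) * Sq (D * t + a) :=
    mul_le_mul_of_nonneg_left h3.le (by linarith)
  have h8 : 0 ≤ ε ^ 2 / 16 * (√D * Sq t) := by
    have : 0 ≤ √D * Sq t := by linarith
    positivity
  have h9 : 0 ≤ ε * (√D * Sq t) := mul_nonneg hε.le (by linarith)
  have h10 : (1 - ε / 4) * ((1 - ε / 4) * (√D * Sq t)) =
      √D * Sq t - ε * (√D * Sq t) / 2 + ε ^ 2 / 16 * (√D * Sq t) := by ring
  have h11 : (1 - ε) * (√D * Sq t) = √D * Sq t - ε * (√D * Sq t) := by ring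
  linarith

theorem log_up {n : ℕ} {y : ℝ} (hn : (n : ℝ) ≤ Real.exp y) (h0 : 0 < n) :
    Real.log n ≤ y := by
  have h1 : (0 : ℝ) < n := by exact_mod_cast h0
  rw [← Real.log_exp y]
  exact Real.log_le_log h1 hn

theorem log_lo {n : ℕ} {y : ℝ} (hn : Real.exp y ≤ (n : ℝ)) : y ≤ Real.log n := by
  rw [← Real.log_exp y]
  exact Real.log_le_log (Real.exp_pos _) hn

/-- **Ordered by the height, second order term.** -/
theorem byHeight2 (K : Type) [Field K] [NumberField K] {κ ε : ℝ} (hκ0 : 0 < κ) (hκ : κ < 1)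
    (hε : 0 < ε) (hε1 : ε ≤ 1) : ∃ t₀ : ℝ, 1 < t₀ ∧ ∀ B t : ℝ, 1 ≤ B → t₀ ≤ t → t ≤ κ * Real.log B →
      (Pts K fun h r => Real.exp h ≤ B ∧ r + t ≤ 3 * h).Finite ∧
      (1 - ε) * (√(Module.finrank ℚ K : ℝ) * Sq t) ≤
        Real.log ((Pts K fun h r => Real.exp h ≤ B ∧ r + t ≤ 3 * h).ncard : ℝ) -
          (2 * (Module.finrank ℚ K : ℝ) * Real.log B - (Module.finrank ℚ K : ℝ) * t) ∧
      Real.log ((Pts K fun h r => Real.exp h ≤ B ∧ r + t ≤ 3 * h).ncard : ℝ) -
          (2 * (Module.finrank ℚ K : ℝ) * Real.log B - (Module.finrank ℚ K : ℝ) * t) ≤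
        (1 + ε) * (√(Module.finrank ℚ K : ℝ) * Sq t) := by
  have hd := fin_pos' (K := K)
  obtain ⟨d, hdd⟩ : ∃ d : ℝ, d = Module.finrank ℚ K := ⟨_, rfl⟩
  rw [← hdd] at hd ⊢
  have hl := lossK_nonneg K
  obtain ⟨l, hll⟩ : ∃ l : ℝ, l = lossK K := ⟨_, rfl⟩
  rw [← hll] at hl
  obtain ⟨κ', hκ'⟩ : ∃ κ', κ' = (1 + κ) / 2 := ⟨_, rfl⟩
  obtain ⟨t₁, ht₁, hup⟩ := up_unif K (κ := κ') (ε := ε / 4) (by rw [hκ']; linarith)
    (by rw [hκ']; linarith) (by positivity)
  obtain ⟨t₂, ht₂, hlo⟩ := lo_unif K (κ := κ') (ε := ε / 4) (by rw [hκ']; linarith)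
    (by rw [hκ']; linarith) (by positivity) (by linarith)
  obtain ⟨t₃, ht₃⟩ := eventually_atTop.1 ((W_up hd hε hε1 (-(3 * l)) (3 * l)).and
    (W_lo hd hε hε1 0 (2 * l)))
  refine ⟨max (max (max t₃ 2) ((t₁ + 3 * l) / d)) (max (t₂ / d) (2 * l / (d * (1 - κ)))), ?_,
    fun B t hB ht0 htB => ?_⟩
  · exact lt_max_of_lt_left (lt_max_of_lt_left (lt_max_of_lt_right (by norm_num)))
  have g3 : t₃ ≤ t := ((le_max_left _ _).trans ((le_max_left _ _).trans (le_max_left _ _))).trans ht0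
  have g0 : 2 ≤ t := ((le_max_right _ _).trans ((le_max_left _ _).trans (le_max_left _ _))).trans ht0
  have g1 : (t₁ + 3 * l) / d ≤ t := ((le_max_right _ _).trans (le_max_left _ _)).trans ht0
  have g2 : t₂ / d ≤ t := ((le_max_left _ _).trans (le_max_right _ _)).trans ht0
  have g4 : 2 * l / (d * (1 - κ)) ≤ t := ((le_max_right _ _).trans (le_max_right _ _)).trans ht0
  rw [div_le_iff₀ hd] at g1 g2
  rw [div_le_iff₀ (mul_pos hd (by linarith))] at g4
  obtain ⟨w1, w2⟩ := ht₃ t g3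
  have hB0 : 0 < B := by linarith
  have hlB : 0 ≤ Real.log B := Real.log_nonneg hB
  have htB' : t ≤ Real.log B := htB.trans (by nlinarith)
  have hfin := byHeight_finite K B t (by linarith)
  -- the upper bound
  have hU : ((Pts K fun h r => Real.exp h ≤ B ∧ r + t ≤ 3 * h).ncard : ℝ) ≤
      Real.exp (2 * (d * Real.log B) - (d * t - 3 * l) + (1 + ε / 4) * Sq (d * t - 3 * l)) := by
    apply (transfer_upper _ _ _).2
    intro F hF
    rw [← hdd, ← hll] at hF
    refine hup (d * Real.log B) (d * t - 3 * l) F (by linarith) ?_ fun y hy => ?_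
    · have h1 := mul_le_mul_of_nonneg_left htB hd.le
      have h2 : d * (κ * Real.log B) ≤ κ' * (d * Real.log B) := by
        rw [hκ']
        have : 0 ≤ d * Real.log B := by positivity
        nlinarith
      linarith
    · obtain ⟨hp, H, h1, h2, P, hP, h3, h4⟩ := hF y hy
      have h5 : H / d ≤ Real.log B := (Real.le_log_iff_exp_le hB0).2 h3
      rw [div_le_iff₀ hd] at h5
      refine ⟨hp, by linarith, P, hP, ?_⟩
      have h6 : tr P + d * t ≤ 3 * H := by
        have h7 := mul_le_mul_of_nonneg_left h4 hd.le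
        have e1 : d * (tr P / d + t) = tr P + d * t := by field_simp
        have e2 : d * (3 * (H / d)) = 3 * H := by field_simp
        rwa [e1, e2] at h7
      linarith
  -- the lower bound
  have hL : Real.exp (2 * (d * Real.log B - l) - d * t + (1 - ε / 4) * Sq (d * t)) ≤
      ((Pts K fun h r => Real.exp h ≤ B ∧ r + t ≤ 3 * h).ncard : ℝ) := by
    obtain ⟨F, hF, hcard⟩ := hlo (d * Real.log B - l) (d * t) (by linarith) (by
      have h1 := mul_le_mul_of_nonneg_left htB hd.le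
      have h2 : κ' * l ≤ l := mul_le_of_le_one_left hl (by rw [hκ']; linarith)
      have h3 : (d * (1 - κ)) * t ≤ (d * (1 - κ)) * Real.log B :=
        mul_le_mul_of_nonneg_left htB' (mul_pos hd (by linarith)).le
      have h4 : κ' * (d * Real.log B - l) = κ * (d * Real.log B) + (1 - κ) / 2 * (d * Real.log B) -
          κ' * l := by rw [hκ']; ring
      rw [h4]
      nlinarith)
    have h1 := transfer_lower (fun h r => Real.exp h ≤ B ∧ r + t ≤ 3 * h) hfin F (by
      intro y hy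
      obtain ⟨hp, h2, P, hP, h3⟩ := hF y hy
      refine ⟨hp, P, hP, fun H g1 g2 => ?_⟩
      rw [← hdd]
      rw [← hll] at g2
      constructor
      · rw [← Real.le_log_iff_exp_le hB0, div_le_iff₀ hd]
        linarith
      · have e1 : tr P / d + t = (tr P + d * t) / d := by field_simp
        have e2 : 3 * (H / d) = (3 * H) / d := by ring
        rw [e1, e2]
        exact div_le_div_of_nonneg_right (by linarith) hd.le)
    exact hcard.trans h1
  have hpos : 0 < (Pts K fun h r => Real.exp h ≤ B ∧ r + t ≤ 3 * h).ncard := by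
    have := (Real.exp_pos _).trans_le hL
    exact_mod_cast this
  refine ⟨hfin, ?_, ?_⟩
  · have h1 := log_lo hL
    have e0 : d * t + 0 = d * t := add_zero _
    rw [e0] at w2
    linarith
  · have h1 := log_up hU hpos
    have e0 : d * t + -(3 * l) = d * t - 3 * l := by ring
    rw [e0] at w1
    linarith

/-- **Ordered by the radical, second order term.** -/
theorem byRadical2 (K : Type) [Field K] [NumberField K] : ∃ κ₀ : ℝ, 0 < κ₀ ∧
    ∀ ε : ℝ, 0 < ε → ε ≤ 1 → ∃ u₀ : ℝ, 1 < u₀ ∧ ∀ X u : ℝ, 1 ≤ X → u₀ ≤ u → u ≤ κ₀ * Real.log X →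
      (Pts K fun h r => Real.exp r ≤ X ∧ r / 3 + u ≤ h).Finite ∧
      (1 - ε) * (√(3 * (Module.finrank ℚ K : ℝ)) * Sq u) ≤
        Real.log ((Pts K fun h r => Real.exp r ≤ X ∧ r / 3 + u ≤ h).ncard : ℝ) -
          (2 / 3 * (Module.finrank ℚ K : ℝ) * Real.log X - (Module.finrank ℚ K : ℝ) * u) ∧
      Real.log ((Pts K fun h r => Real.exp r ≤ X ∧ r / 3 + u ≤ h).ncard : ℝ) -
          (2 / 3 * (Module.finrank ℚ K : ℝ) * Real.log X - (Module.finrank ℚ K : ℝ) * u) ≤
        (1 + ε) * (√(3 * (Module.finrank ℚ K : ℝ)) * Sq u) := by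
  have hd := fin_pos' (K := K)
  obtain ⟨d, hdd⟩ : ∃ d : ℝ, d = Module.finrank ℚ K := ⟨_, rfl⟩
  rw [← hdd] at hd ⊢
  have h3d : 0 < 3 * d := by positivity
  have hl := lossK_nonneg K
  obtain ⟨l, hll⟩ : ∃ l : ℝ, l = lossK K := ⟨_, rfl⟩
  rw [← hll] at hl
  obtain ⟨κ₁, hκ1, hκ5, hup⟩ := radical_up2 K
  obtain ⟨C', hC', hfin⟩ := byRadical_all K
  refine ⟨κ₁ / 3, by positivity, fun ε hε hε1 => ?_⟩
  obtain ⟨t₁, ht₁, hup⟩ := hup (ε / 4) (by positivity) (by linarith)
  obtain ⟨t₂, ht₂, hlo⟩ := lo_unif K (κ := 3 / 4) (ε := ε / 4) (by norm_num) (by norm_num)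
    (by positivity) (by linarith)
  obtain ⟨t₃, ht₃⟩ := eventually_atTop.1 ((W_up h3d hε hε1 (-(3 * l)) l).and
    (W_lo h3d hε hε1 0 0))
  refine ⟨max (max t₃ 2) (max ((t₁ + 3 * l) / (3 * d)) (t₂ / (3 * d))), ?_,
    fun X u hX hu0 huX => ?_⟩
  · exact lt_max_of_lt_left (lt_max_of_lt_right (by norm_num))
  have g3 : t₃ ≤ u := ((le_max_left _ _).trans (le_max_left _ _)).trans hu0
  have g0 : 2 ≤ u := ((le_max_right _ _).trans (le_max_left _ _)).trans hu0
  have g1 : (t₁ + 3 * l) / (3 * d) ≤ u := ((le_max_left _ _).trans (le_max_right _ _)).trans hu0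
  have g2 : t₂ / (3 * d) ≤ u := ((le_max_right _ _).trans (le_max_right _ _)).trans hu0
  rw [div_le_iff₀ h3d] at g1 g2
  obtain ⟨w1, w2⟩ := ht₃ u g3
  have hX0 : 0 < X := by linarith
  have hlX : 0 ≤ Real.log X := Real.log_nonneg hX
  have huX' : 3 * d * u ≤ κ₁ * (d * Real.log X) := by
    have h1 := mul_le_mul_of_nonneg_left huX h3d.le
    have h2 : 3 * d * (κ₁ / 3 * Real.log X) = κ₁ * (d * Real.log X) := by ring
    linarith
  have hfin' : (Pts K fun h r => Real.exp r ≤ X ∧ r / 3 + u ≤ h).Finite :=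
    (hfin X hX).1.subset (Pts_mono K fun a b h => h.1)
  -- the upper bound
  have hU : ((Pts K fun h r => Real.exp r ≤ X ∧ r / 3 + u ≤ h).ncard : ℝ) ≤
      Real.exp (2 / 3 * (d * Real.log X) - 1 / 3 * (3 * d * u - 3 * l) +
        (1 + ε / 4) * Sq (3 * d * u - 3 * l)) := by
    apply (transfer_upper _ _ _).2
    intro F hF
    rw [← hdd, ← hll] at hF
    refine hup (d * Real.log X) (3 * d * u - 3 * l) F (by linarith) (by linarith) fun y hy => ?_
    obtain ⟨hp, H, g1, g2, P, hP, g3, g4⟩ := hF y hy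
    have h5 : tr P / d ≤ Real.log X := (Real.le_log_iff_exp_le hX0).2 g3
    rw [div_le_iff₀ hd] at h5
    refine ⟨hp, P, hP, by linarith, ?_⟩
    have h7 := mul_le_mul_of_nonneg_left g4 (by positivity : 0 ≤ 3 * d)
    have e1 : 3 * d * (tr P / d / 3 + u) = tr P + 3 * d * u := by field_simp
    have e2 : 3 * d * (H / d) = 3 * H := by field_simp
    rw [e1, e2] at h7
    linarith
  -- the lower bound
  have hL : Real.exp (2 * ((d * Real.log X + 3 * d * u) / 3) - 3 * d * u +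
      (1 - ε / 4) * Sq (3 * d * u)) ≤
      ((Pts K fun h r => Real.exp r ≤ X ∧ r / 3 + u ≤ h).ncard : ℝ) := by
    obtain ⟨F, hF, hcard⟩ := hlo ((d * Real.log X + 3 * d * u) / 3) (3 * d * u) (by linarith) (by
      have h1 : κ₁ * (d * Real.log X) ≤ 1 / 5 * (d * Real.log X) :=
        mul_le_mul_of_nonneg_right hκ5 (by positivity)
      linarith)
    have h1 := transfer_lower (fun h r => Real.exp r ≤ X ∧ r / 3 + u ≤ h) hfin' F (by
      intro y hy
      obtain ⟨hp, h2, P, hP, h3⟩ := hF y hy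
      refine ⟨hp, P, hP, fun H g1 g2 => ?_⟩
      rw [← hdd]
      constructor
      · rw [← Real.le_log_iff_exp_le hX0, div_le_iff₀ hd]
        linarith
      · have e1 : tr P / d / 3 + u = (tr P + 3 * d * u) / (3 * d) := by field_simp
        have e2 : H / d = (3 * H) / (3 * d) := by field_simp
        rw [e1, e2]
        exact div_le_div_of_nonneg_right (by linarith) (by positivity))
    exact hcard.trans h1
  have hpos : 0 < (Pts K fun h r => Real.exp r ≤ X ∧ r / 3 + u ≤ h).ncard := by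
    have := (Real.exp_pos _).trans_le hL
    exact_mod_cast this
  refine ⟨hfin', ?_, ?_⟩
  · have h1 := log_lo hL
    have e0 : 3 * d * u + 0 = 3 * d * u := add_zero _
    rw [e0] at w2
    linarith
  · have h1 := log_up hU hpos
    have e0 : 3 * d * u + -(3 * l) = 3 * d * u - 3 * l := by ring
    rw [e0] at w1
    linarith

end Pool.Agent.KS6_64.RO
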