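import Pool.Agent.KS6_64.RO.SecF

/-!
# The exceptions to `h < M rad`, of whatever height: the second order term
-/

set_option autoImplicit false

namespace Pool.Agent.KS6_64.RO

open NumberField IsDedekindDomain Finset Filter Topology Pool.Agent.H691R3 Pool.Agent.W223.AK
open Pool.Agent.N906.RS Pool.Agent.N776.RS

theorem Sq_mono {s t : ℝ} (hs : Real.exp 1 ≤ s) (hst : s ≤ t) : Sq s ≤ Sq t := by
  have h1 := Real.log_div_self_antitoneOn hs (hs.trans hst) hst
  simp only at h1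
  have hs0 : 0 < s := (Real.exp_pos _).trans_le hs
  have ht0 : 0 < t := hs0.trans_le hst
  have hls : 0 < Real.log s := by
    have := Real.log_le_log (Real.exp_pos _) hs
    rw [Real.log_exp] at this
    linarith
  have hlt : 0 < Real.log t := hls.trans_le (Real.log_le_log hs0 hst)
  apply Real.sqrt_le_sqrt
  rw [div_le_div_iff₀ ht0 hs0] at h1
  rw [div_le_div_iff₀ hls hlt]
  nlinarith

/-- the points with `tr ≤ R` and `M tr ≤ ht + l` -/
theorem exc_up2 (K : Type) [Field K] [NumberField K] : ∃ κ₀ : ℝ, 0 < κ₀ ∧ κ₀ ≤ 1 / 5 ∧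
    ∀ M l ε : ℝ, 1 / 3 < M → 3 * M - 1 ≤ κ₀ → 0 ≤ l → 0 < ε → ε ≤ 1 →
      ∃ C R₀ : ℝ, 0 < C ∧ ∀ (R : ℝ) (F : Finset K), R₀ ≤ R →
      (∀ x ∈ F, Pt x ∧ ∃ P : Fin 3 → Idl K, IsP ∅ x P ∧ tr P ≤ R ∧ M * tr P ≤ ht x + l) →
      (F.card : ℝ) ≤ C * Real.exp ((1 - M) * R + (1 + ε) * Sq ((3 * M - 1) * R)) := by
  classical
  obtain ⟨κ₀, hκ0, hκ5, hup⟩ := radical_up2 K
  refine ⟨κ₀, hκ0, hκ5, fun M l ε hM hMκ hl hε hε1 => ?_⟩
  obtain ⟨t₀, ht₀, hup⟩ := hup ε hε hε1
  obtain ⟨C', hC', hall⟩ := all_upper K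
  have hM1 : 0 < 3 * M - 1 := by linarith
  have hM2 : 0 < 1 - M := by linarith
  have hM3 : M ≤ 1 := by linarith
  obtain ⟨t₁, ht₁⟩ : ∃ t₁, t₁ = max t₀ (Real.exp 1) := ⟨_, rfl⟩
  have ht10 : t₀ ≤ t₁ := by rw [ht₁]; exact le_max_left _ _
  have ht1e : Real.exp 1 ≤ t₁ := by rw [ht₁]; exact le_max_right _ _
  obtain ⟨ρ, hρ⟩ : ∃ ρ, ρ = (t₁ + 3 * M + 3 * l) / (3 * M - 1) := ⟨_, rfl⟩
  have hρ1 : (3 * M - 1) * ρ = t₁ + 3 * M + 3 * l := by rw [hρ]; field_simp
  have hρ0 : 0 < ρ := by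
    rw [hρ]
    have := (Real.exp_pos 1).trans_le ht1e
    positivity
  obtain ⟨g, hg⟩ : ∃ g, g = (1 - Real.exp (-(1 - M)))⁻¹ := ⟨_, rfl⟩
  have hg0 : 0 ≤ g := by
    rw [hg]
    have : Real.exp (-(1 - M)) < 1 := by rw [Real.exp_lt_one_iff]; linarith
    exact inv_nonneg.2 (by linarith)
  refine ⟨C' * Real.exp (2 / 3 * ρ) + Real.exp (M + l) * g, 0, by positivity,
    fun R F hR hF => ?_⟩
  -- the choice of the ideals
  have hP' : ∀ x : K, ∃ P : Fin 3 → Idl K, x ∈ F → IsP ∅ x P ∧ tr P ≤ R ∧ M * tr P ≤ ht x + l := by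
    intro x
    by_cases hx : x ∈ F
    · obtain ⟨P, hP⟩ := (hF x hx).2
      exact ⟨P, fun _ => hP⟩
    · exact ⟨0, fun h => absurd h hx⟩
  choose P hP using hP'
  obtain ⟨E, hE⟩ : ∃ E, E = Real.exp ((1 - M) * R + (1 + ε) * Sq ((3 * M - 1) * R)) := ⟨_, rfl⟩
  rw [← hE]
  have hE0 : 0 < E := by rw [hE]; exact Real.exp_pos _
  have hE1 : 1 ≤ E := by
    rw [hE]
    apply Real.one_le_exp
    have := Sq_nonneg ((3 * M - 1) * R)
    positivity
  have hsmall : ((#{x ∈ F | tr (P x) ≤ ρ} : ℕ) : ℝ) ≤ C' * Real.exp (2 / 3 * ρ) * E := by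
    refine (hall ρ _ hρ0.le fun x hx => ?_).trans ?_
    · rw [mem_filter] at hx
      exact ⟨(hF x hx.1).1, P x, (hP x hx.1).1, hx.2⟩
    · exact le_mul_of_one_le_right (by positivity) hE1
  have hsplit : (F.card : ℝ) = ((#{x ∈ F | tr (P x) ≤ ρ} : ℕ) : ℝ) +
      ((#{x ∈ F | ¬ tr (P x) ≤ ρ} : ℕ) : ℝ) := by
    exact_mod_cast (Finset.card_filter_add_card_filter_not _).symm
  set F₁ : Finset K := {x ∈ F | ¬ tr (P x) ≤ ρ} with hF₁
  have hF₁m : ∀ x ∈ F₁, x ∈ F ∧ ρ < tr (P x) := by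
    intro x hx
    rw [hF₁, mem_filter] at hx
    exact ⟨hx.1, not_le.1 hx.2⟩
  have hbig : (F₁.card : ℝ) ≤ Real.exp (M + l) * g * E := by
    obtain ⟨n, hn⟩ : ∃ n : ℕ, R < n := exists_nat_gt _
    rw [card_eq_sum_card_fiberwise (f := fun x => ⌊R - tr (P x)⌋₊) (t := range n) (by
      intro x hx
      obtain ⟨h1, h2⟩ := hF₁m x (Finset.mem_coe.1 hx)
      simp only [coe_range, Set.mem_Iio]
      have h3 := Nat.floor_le (a := R - tr (P x)) (by linarith [(hP x h1).2.1])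
      have h4 : ((⌊R - tr (P x)⌋₊ : ℕ) : ℝ) < n := by linarith
      exact_mod_cast h4)]
    push_cast
    have hfib : ∀ k ∈ range n, ((#{x ∈ F₁ | ⌊R - tr (P x)⌋₊ = k} : ℕ) : ℝ) ≤
        Real.exp (M + l) * E * Real.exp (-((1 - M) * (k : ℝ))) := by
      intro k _
      rcases Finset.eq_empty_or_nonempty {x ∈ F₁ | ⌊R - tr (P x)⌋₊ = k} with he | hne
      · rw [he, card_empty]
        simp only [Nat.cast_zero]
        positivity
      · obtain ⟨y, hy⟩ := hne
        rw [mem_filter] at hy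
        obtain ⟨hyF, hy1⟩ := hF₁m y hy.1
        have hk0 : (0 : ℝ) ≤ k := Nat.cast_nonneg _
        have hyk : (k : ℝ) ≤ R - tr (P y) := by
          rw [← hy.2]
          exact Nat.floor_le (by linarith [(hP y hyF).2.1])
        have hRk : ρ ≤ R - k := by linarith
        have hT : t₁ ≤ (3 * M - 1) * (R - k) - 3 * M - 3 * l := by
          have := mul_le_mul_of_nonneg_left hRk hM1.le
          linarith
        have hRk0 : 0 ≤ R - k := by linarith
        have hc := hup (R - k) ((3 * M - 1) * (R - k) - 3 * M - 3 * l)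
          {x ∈ F₁ | ⌊R - tr (P x)⌋₊ = k} (ht10.trans hT) (by
            have := mul_le_mul_of_nonneg_right hMκ hRk0
            linarith) (by
            intro x hx
            rw [mem_filter] at hx
            obtain ⟨hxF, hx1⟩ := hF₁m x hx.1
            have h5 : (k : ℝ) ≤ R - tr (P x) := by
              rw [← hx.2]
              exact Nat.floor_le (by linarith [(hP x hxF).2.1])
            have h6 : R - tr (P x) < (k : ℝ) + 1 := by
              rw [← hx.2]
              exact Nat.lt_floor_add_one _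
            refine ⟨(hF x hxF).1, P x, (hP x hxF).1, by linarith, ?_⟩
            have h7 := (hP x hxF).2.2
            have h8 : (3 * M - 1) * (R - k - 1) ≤ (3 * M - 1) * tr (P x) :=
              mul_le_mul_of_nonneg_left (by linarith) hM1.le
            linarith)
        refine hc.trans ?_
        rw [hE, ← Real.exp_add, ← Real.exp_add]
        apply Real.exp_le_exp.2
        have h9 : Sq ((3 * M - 1) * (R - k) - 3 * M - 3 * l) ≤ Sq ((3 * M - 1) * R) := by
          apply Sq_mono (ht1e.trans hT)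
          have : (3 * M - 1) * (R - k) ≤ (3 * M - 1) * R :=
            mul_le_mul_of_nonneg_left (by linarith) hM1.le
          linarith
        have h10 : (1 + ε) * Sq ((3 * M - 1) * (R - k) - 3 * M - 3 * l) ≤
            (1 + ε) * Sq ((3 * M - 1) * R) := mul_le_mul_of_nonneg_left h9 (by positivity)
        linarith
    refine (Finset.sum_le_sum hfib).trans ?_
    rw [← Finset.mul_sum]
    have h10 := geom_le hM2 n
    rw [← hg] at h10
    calc Real.exp (M + l) * E * ∑ k ∈ range n, Real.exp (-((1 - M) * (k : ℝ)))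
        ≤ Real.exp (M + l) * E * g := mul_le_mul_of_nonneg_left h10 (by positivity)
      _ = _ := by ring
  rw [hsplit, add_mul]
  exact add_le_add hsmall hbig

/-- **The exceptions of whatever height, second order term.** -/
theorem exceptions2 (K : Type) [Field K] [NumberField K] : ∃ M₀ : ℝ, 1 / 3 < M₀ ∧
    ∀ M ε : ℝ, 1 / 3 < M → M < M₀ → 0 < ε → ε ≤ 1 → ∃ X₀ : ℝ, 1 < X₀ ∧ ∀ X : ℝ, X₀ ≤ X →
      (Pts K fun h r => Real.exp r ≤ X ∧ M * r ≤ h).Finite ∧
      (1 - ε) * (√((3 * M - 1) * (Module.finrank ℚ K : ℝ)) * Sq (Real.log X)) ≤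
        Real.log ((Pts K fun h r => Real.exp r ≤ X ∧ M * r ≤ h).ncard : ℝ) -
          (Module.finrank ℚ K : ℝ) * (1 - M) * Real.log X ∧
      Real.log ((Pts K fun h r => Real.exp r ≤ X ∧ M * r ≤ h).ncard : ℝ) -
          (Module.finrank ℚ K : ℝ) * (1 - M) * Real.log X ≤
        (1 + ε) * (√((3 * M - 1) * (Module.finrank ℚ K : ℝ)) * Sq (Real.log X)) := by
  have hd := fin_pos' (K := K)
  obtain ⟨κ₁, hκ1, hκ15, hexc⟩ := exc_up2 K
  obtain ⟨κ₂, hκ2, hrad⟩ := byRadical2 K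
  obtain ⟨C', hC', hfin⟩ := byRadical_all K
  refine ⟨1 / 3 + min (κ₁ / 3) κ₂, ?_, fun M ε hM hM0 hε hε1 => ?_⟩
  · have : 0 < min (κ₁ / 3) κ₂ := lt_min (by positivity) hκ2
    linarith
  have hMa : M ≤ 1 / 3 + κ₁ / 3 := by
    have := min_le_left (κ₁ / 3) κ₂
    linarith
  have hMb : M ≤ 1 / 3 + κ₂ := by
    have := min_le_right (κ₁ / 3) κ₂
    linarith
  obtain ⟨d, hdd⟩ : ∃ d : ℝ, d = Module.finrank ℚ K := ⟨_, rfl⟩
  simp only [← hdd] at hrad hfin ⊢
  rw [← hdd] at hd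
  have hl := lossK_nonneg K
  obtain ⟨l, hll⟩ : ∃ l : ℝ, l = lossK K := ⟨_, rfl⟩
  rw [← hll] at hl
  have hM1 : 0 < 3 * M - 1 := by linarith
  have hD : 0 < (3 * M - 1) * d := by positivity
  have hD' : 0 < M - 1 / 3 := by linarith
  obtain ⟨C, R₀, hC, hup⟩ := hexc M l (ε / 4) hM (by linarith) hl (by positivity) (by linarith)
  obtain ⟨u₀, hu₀, hlo⟩ := hrad (ε / 4) (by positivity) (by linarith)
  have hW1 := W_up hD hε hε1 0 (Real.log C)
  have hW2 := (Sq_ratio hD' 0).eventually (lt_mem_nhds (show 1 - ε / 4 < 1 by linarith))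
  obtain ⟨b₀, hb₀⟩ := eventually_atTop.1 (hW1.and (hW2.and (eventually_gt_atTop (1 : ℝ))))
  obtain ⟨b₁, hb₁⟩ : ∃ b₁, b₁ = max (max b₀ 1) (max (R₀ / d) (u₀ / (M - 1 / 3))) := ⟨_, rfl⟩
  refine ⟨Real.exp b₁, ?_, fun X hX => ?_⟩
  · rw [Real.one_lt_exp_iff, hb₁]
    exact lt_max_of_lt_left (lt_max_of_lt_right (by norm_num))
  have hX0 : 0 < X := (Real.exp_pos _).trans_le hX
  have hbX : b₁ ≤ Real.log X := (Real.le_log_iff_exp_le hX0).2 hX
  have g1 : b₀ ≤ Real.log X := ((le_max_left _ _).trans (le_max_left _ _)).trans (hb₁ ▸ hbX)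
  have g2 : 1 ≤ Real.log X := ((le_max_right _ _).trans (le_max_left _ _)).trans (hb₁ ▸ hbX)
  have g3 : R₀ / d ≤ Real.log X := ((le_max_left _ _).trans (le_max_right _ _)).trans (hb₁ ▸ hbX)
  have g4 : u₀ / (M - 1 / 3) ≤ Real.log X :=
    ((le_max_right _ _).trans (le_max_right _ _)).trans (hb₁ ▸ hbX)
  rw [div_le_iff₀ hd] at g3
  rw [div_le_iff₀ hD'] at g4
  have hX1 : 1 ≤ X := by
    by_contra h
    have := Real.log_nonpos hX0.le (not_le.1 h).le
    linarith
  obtain ⟨w1, w2, w3⟩ := hb₀ (Real.log X) g1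
  have hfin' : (Pts K fun h r => Real.exp r ≤ X ∧ M * r ≤ h).Finite :=
    (hfin X hX1).1.subset (Pts_mono K fun a b h => h.1)
  -- the upper bound
  have hU : ((Pts K fun h r => Real.exp r ≤ X ∧ M * r ≤ h).ncard : ℝ) ≤
      Real.exp (Real.log C + ((1 - M) * (d * Real.log X) +
        (1 + ε / 4) * Sq ((3 * M - 1) * (d * Real.log X)))) := by
    apply (transfer_upper _ _ _).2
    intro F hF
    rw [← hdd, ← hll] at hF
    rw [Real.exp_add, Real.exp_log hC]
    refine hup (d * Real.log X) F (by linarith) fun y hy => ?_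
    obtain ⟨hp, H, g1, g2, P, hP, g3, g4⟩ := hF y hy
    have h5 : tr P / d ≤ Real.log X := (Real.le_log_iff_exp_le hX0).2 g3
    rw [div_le_iff₀ hd] at h5
    refine ⟨hp, P, hP, by linarith, ?_⟩
    rw [← mul_div_assoc, div_le_div_iff_of_pos_right hd] at g4
    linarith
  -- the lower bound
  obtain ⟨q1, q2, -⟩ := hlo X ((M - 1 / 3) * Real.log X) hX1 (by linarith)
    (mul_le_mul_of_nonneg_right (by linarith) (by linarith))
  have hsub : (Pts K fun h r => Real.exp r ≤ X ∧ r / 3 + (M - 1 / 3) * Real.log X ≤ h) ⊆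
      (Pts K fun h r => Real.exp r ≤ X ∧ M * r ≤ h) := by
    refine Pts_mono K fun a b h => ⟨h.1, ?_⟩
    have h1 : b ≤ Real.log X := (Real.le_log_iff_exp_le hX0).2 h.1
    have h2 := mul_le_mul_of_nonneg_left h1 hD'.le
    linarith [h.2]
  have hn1 : (((Pts K fun h r => Real.exp r ≤ X ∧ r / 3 + (M - 1 / 3) * Real.log X ≤ h).ncard
      : ℕ) : ℝ) ≤ ((Pts K fun h r => Real.exp r ≤ X ∧ M * r ≤ h).ncard : ℝ) := by
    exact_mod_cast Set.ncard_le_ncard hsub hfin'
  -- positivity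
  have hS1 : 0 ≤ √(3 * d) * Sq ((M - 1 / 3) * Real.log X) := by
    have := Sq_nonneg ((M - 1 / 3) * Real.log X)
    positivity
  have hpos1 : 0 < (Pts K fun h r => Real.exp r ≤ X ∧
      r / 3 + (M - 1 / 3) * Real.log X ≤ h).ncard := by
    by_contra h
    have h0 : (Pts K fun h r => Real.exp r ≤ X ∧ r / 3 + (M - 1 / 3) * Real.log X ≤ h).ncard = 0 := by
      omega
    rw [h0] at q2
    simp only [Nat.cast_zero, Real.log_zero] at q2
    have h1 : 0 < d * (1 - M) * Real.log X := by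
      have : 0 < 1 - M := by linarith
      positivity
    have h2 : 0 ≤ (1 - ε / 4) * (√(3 * d) * Sq ((M - 1 / 3) * Real.log X)) :=
      mul_nonneg (by linarith) hS1
    have h3 : 2 / 3 * d * Real.log X - d * ((M - 1 / 3) * Real.log X) =
        d * (1 - M) * Real.log X := by ring
    linarith
  have hpos : 0 < (Pts K fun h r => Real.exp r ≤ X ∧ M * r ≤ h).ncard := by
    have : (0 : ℝ) < _ := lt_of_lt_of_le (by exact_mod_cast hpos1) hn1
    exact_mod_cast this
  refine ⟨hfin', ?_, ?_⟩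
  · have h1 : Real.log ((Pts K fun h r => Real.exp r ≤ X ∧
        r / 3 + (M - 1 / 3) * Real.log X ≤ h).ncard : ℝ) ≤
        Real.log ((Pts K fun h r => Real.exp r ≤ X ∧ M * r ≤ h).ncard : ℝ) :=
      Real.log_le_log (by exact_mod_cast hpos1) hn1
    have h3 : 2 / 3 * d * Real.log X - d * ((M - 1 / 3) * Real.log X) =
        d * (1 - M) * Real.log X := by ring
    rw [sqrt_Sq hD'.le, add_zero] at w2
    have hlX : 0 < √(M - 1 / 3) * Sq (Real.log X) := by
      have h4 : 0 < Sq (Real.log X) := by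
        apply Real.sqrt_pos.2
        have := Real.log_pos w3
        positivity
      positivity
    rw [lt_div_iff₀ hlX] at w2
    have h5 : √((3 * M - 1) * d) = √(3 * d) * √(M - 1 / 3) := by
      rw [← Real.sqrt_mul (by positivity)]
      congr 1
      ring
    rw [h5]
    have h6 : (1 - ε / 4) * (√(3 * d) * ((1 - ε / 4) * (√(M - 1 / 3) * Sq (Real.log X)))) ≤
        (1 - ε / 4) * (√(3 * d) * Sq ((M - 1 / 3) * Real.log X)) := by
      apply mul_le_mul_of_nonneg_left _ (by linarith)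
      exact mul_le_mul_of_nonneg_left w2.le (Real.sqrt_nonneg _)
    have h7 : (1 - ε) * (√(3 * d) * √(M - 1 / 3) * Sq (Real.log X)) ≤
        (1 - ε / 4) * (√(3 * d) * ((1 - ε / 4) * (√(M - 1 / 3) * Sq (Real.log X)))) := by
      have h8 : 0 ≤ √(3 * d) * √(M - 1 / 3) * Sq (Real.log X) := by
        have := Sq_nonneg (Real.log X)
        positivity
      have h9 : (1 - ε / 4) * (√(3 * d) * ((1 - ε / 4) * (√(M - 1 / 3) * Sq (Real.log X)))) =
          (1 - ε / 4) ^ 2 * (√(3 * d) * √(M - 1 / 3) * Sq (Real.log X)) := by ring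
      rw [h9]
      apply mul_le_mul_of_nonneg_right _ h8
      nlinarith
    linarith
  · have h1 := log_up hU hpos
    have e0 : (3 * M - 1) * d * Real.log X + 0 = (3 * M - 1) * (d * Real.log X) := by ring
    rw [e0] at w1
    linarith

end Pool.Agent.KS6_64.RO
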