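import Pool.Agent.KS6_64.RO.Upper
import Pool.Agent.KS6_64.RO.SecAsy

/-!
# The number of the points with `3 ht - tr ≥ t`, upper bound with the second order term
-/

set_option autoImplicit false

namespace Pool.Agent.KS6_64.RO

open NumberField IsDedekindDomain Finset Filter Topology Pool.Agent.H691R3 Pool.Agent.W223.AK
open Pool.Agent.N906.RS Pool.Agent.N776.RS

/-- **Upper bound with the second order term, uniform in `t`.** -/
theorem up_unif (K : Type) [Field K] [NumberField K] {κ ε : ℝ} (hκ0 : 0 < κ) (hκ : κ < 1)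
    (hε : 0 < ε) : ∃ t₀ : ℝ, 1 < t₀ ∧ ∀ (X t : ℝ) (F : Finset K), t₀ ≤ t → t ≤ κ * X →
      (∀ x ∈ F, Pt x ∧ ht x ≤ X ∧ ∃ P : Fin 3 → Idl K, IsP ∅ x P ∧ tr P + t ≤ 3 * ht x) →
      (F.card : ℝ) ≤ Real.exp (2 * X - t + (1 + ε) * Sq t) := by
  classical
  obtain ⟨r, hr⟩ : ∃ r : ℕ, r = Fintype.card (InfinitePlace K) := ⟨_, rfl⟩
  obtain ⟨C, hC, hcell⟩ := cell_all K
  obtain ⟨u₀, hu₀, hu₀1, hgup⟩ := gup_all K 1 0 (ε / 2) one_pos le_rfl (by norm_num) (by positivity)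
  obtain ⟨lam, hlam⟩ : ∃ lam, lam = 2 + (1 - κ) / 2 := ⟨_, rfl⟩
  obtain ⟨D, hD, hbig⟩ := big K lam ((1 - κ) / 4) (by rw [hlam]; linarith)
    (by rw [hlam]; linarith) (by linarith)
  obtain ⟨A, hA⟩ : ∃ A, A = 2 * ((3 : ℝ) ^ r * (C * (1 + Real.exp (12 * r)) * Real.exp (7 * r))) :=
    ⟨_, rfl⟩
  have hA0 : 0 < A := by rw [hA]; positivity
  obtain ⟨t₁, ht₁, hpar⟩ := param (r := r) hA0 (ε := ε / 2) (by positivity) hu₀
  refine ⟨max t₁ (Real.log (2 * D) * 4 / (1 - κ)), lt_max_of_lt_left ht₁, fun X t F ht0 htX hF => ?_⟩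
  have ht1 : t₁ ≤ t := (le_max_left _ _).trans ht0
  have htD : Real.log (2 * D) * 4 / (1 - κ) ≤ t := (le_max_right _ _).trans ht0
  have htp : 0 < t := by linarith
  have hX0 : 0 < X := by
    by_contra h
    have : κ * X ≤ 0 := mul_nonpos_of_nonneg_of_nonpos hκ0.le (not_lt.1 h)
    linarith
  have htX' : t ≤ X := htX.trans (by nlinarith)
  obtain ⟨u, hu0, huu, hu1, hmain⟩ := hpar t ht1
  obtain ⟨G, hGd⟩ : ∃ G, G = Real.exp ((1 + ε / 2) * (3 * 1) / (u * Real.log (1 / u))) := ⟨_, rfl⟩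
  have hG : ∀ F : Finset (Fin 3 → Idl K), (∀ E ∈ F, PC E) →
      ∑ E ∈ F, Real.exp (-(u * tl E) - tr E) ≤ G := by
    intro F' hF'
    have h8 := hgup u hu0 huu F' hF'
    rw [hGd]
    refine le_trans (le_of_eq (Finset.sum_congr rfl fun E _ => ?_)) h8
    rw [one_pow, one_mul]
    congr 1
    ring
  -- the choice of the ideals
  have hP' : ∀ x : K, ∃ P : Fin 3 → Idl K, x ∈ F → IsP ∅ x P ∧ tr P + t ≤ 3 * ht x := by
    intro x
    by_cases hx : x ∈ F
    · obtain ⟨P, hP⟩ := (hF x hx).2.2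
      exact ⟨P, fun _ => hP⟩
    · exact ⟨0, fun h => absurd h hx⟩
  choose P hP using hP'
  obtain ⟨E, hE⟩ : ∃ E, E = Real.exp (2 * X - t + (1 + ε) * Sq t) := ⟨_, rfl⟩
  rw [← hE]
  have h1 : ((#{x ∈ F | tr (P x) ≤ lam * ht x} : ℕ) : ℝ) ≤ E / 2 := by
    refine (hbig X _ hX0.le ?_).trans ?_
    · intro x hx
      rw [mem_filter] at hx
      exact ⟨(hF x hx.1).1, (hF x hx.1).2.1, P x, (hP x hx.1).1, hx.2⟩
    · rw [le_div_iff₀ (by norm_num : (0 : ℝ) < 2), hE]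
      have e1 : D * Real.exp ((lam - 1 + (1 - κ) / 4) * X) * 2 =
          Real.exp (Real.log (2 * D) + (lam - 1 + (1 - κ) / 4) * X) := by
        rw [Real.exp_add, Real.exp_log (by positivity)]
        ring
      rw [e1]
      apply Real.exp_le_exp.2
      rw [div_le_iff₀ (by linarith)] at htD
      have h3 := Sq_nonneg t
      have h4 : 0 ≤ (1 + ε) * Sq t := by positivity
      have h5 : (1 - κ) * t ≤ (1 - κ) * X := mul_le_mul_of_nonneg_left htX' (by linarith)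
      rw [hlam]
      nlinarith
  have h2 : ((#{x ∈ F | ¬ tr (P x) ≤ lam * ht x} : ℕ) : ℝ) ≤ E / 2 := by
    have hc := cellt hC hcell hu0 hu1 hG hr X t hX0.le {x ∈ F | ¬ tr (P x) ≤ lam * ht x} (by
      intro x hx
      rw [mem_filter] at hx
      obtain ⟨hxF, hx1⟩ := hx
      push Not at hx1
      refine ⟨(hF x hxF).1, (hF x hxF).2.1, P x, (hP x hxF).1, (hP x hxF).2, ?_⟩
      have h3 : (3 - lam) * ht x ≤ 1 * ht x :=
        mul_le_mul_of_nonneg_right (by rw [hlam]; linarith) (ht_nonneg x)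
      have h4 := (hF x hxF).2.1
      linarith)
    refine hc.trans ?_
    rw [le_div_iff₀ (by norm_num : (0 : ℝ) < 2), hE]
    have e1 : ((3 : ℝ) ^ r * ((1 - Real.exp (-u))⁻¹) ^ r) *
      (C * (1 + Real.exp (12 * r)) * Real.exp (7 * r) * Real.exp (2 * X - (1 - u) * t) * G) * 2 =
      Real.exp (2 * X - t) * (A * (((1 - Real.exp (-u))⁻¹) ^ r *
        Real.exp (u * t + (1 + ε / 2) * (3 * 1) / (u * Real.log (1 / u))))) := by
      rw [hGd, Real.exp_add (u * t)]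
      have : Real.exp (2 * X - (1 - u) * t) = Real.exp (2 * X - t) * Real.exp (u * t) := by
        rw [← Real.exp_add]
        congr 1
        ring
      rw [this, hA]
      ring
    rw [e1]
    calc Real.exp (2 * X - t) * (A * (((1 - Real.exp (-u))⁻¹) ^ r *
        Real.exp (u * t + (1 + ε / 2) * (3 * 1) / (u * Real.log (1 / u)))))
        ≤ Real.exp (2 * X - t) * Real.exp ((1 + 2 * (ε / 2)) * Sq t) :=
          mul_le_mul_of_nonneg_left hmain (Real.exp_pos _).le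
      _ = _ := by
          rw [← Real.exp_add]
          congr 1
          ring
  have h3 : (F.card : ℝ) = ((#{x ∈ F | tr (P x) ≤ lam * ht x} : ℕ) : ℝ) +
      ((#{x ∈ F | ¬ tr (P x) ≤ lam * ht x} : ℕ) : ℝ) := by
    exact_mod_cast (Finset.card_filter_add_card_filter_not _).symm
  rw [h3]
  linarith

/-- **The points with `tr ≤ R` and `tr + t ≤ 3 ht`, upper bound with the second order term.** -/
theorem radical_up2 (K : Type) [Field K] [NumberField K] : ∃ κ₀ : ℝ, 0 < κ₀ ∧ κ₀ ≤ 1 / 5 ∧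
    ∀ ε : ℝ, 0 < ε → ε ≤ 1 → ∃ t₀ : ℝ, 1 < t₀ ∧ ∀ (R t : ℝ) (F : Finset K), t₀ ≤ t → t ≤ κ₀ * R →
      (∀ x ∈ F, Pt x ∧ ∃ P : Fin 3 → Idl K, IsP ∅ x P ∧ tr P ≤ R ∧ tr P + t ≤ 3 * ht x) →
      (F.card : ℝ) ≤ Real.exp (2 / 3 * R - 1 / 3 * t + (1 + ε) * Sq t) := by
  classical
  obtain ⟨ν, C₁, hν, hC₁, hexc⟩ := exc_aff K (M := 2 / 5) (by norm_num)
  obtain ⟨κ₀, hκ₀⟩ : ∃ κ₀, κ₀ = min ν (1 / 5) := ⟨_, rfl⟩
  have hκ0 : 0 < κ₀ := by rw [hκ₀]; exact lt_min hν (by norm_num)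
  have hκν : κ₀ ≤ ν := by rw [hκ₀]; exact min_le_left _ _
  have hκ5 : κ₀ ≤ 1 / 5 := by rw [hκ₀]; exact min_le_right _ _
  refine ⟨κ₀, hκ0, hκ5, fun ε hε hε1 => ?_⟩
  obtain ⟨t₁, ht₁, hup⟩ := up_unif K (κ := 3 / 4) (ε := ε / 2) (by norm_num) (by norm_num)
    (by positivity)
  obtain ⟨g, hg⟩ : ∃ g, g = (1 - Real.exp (-(1 / 2 : ℝ)))⁻¹ := ⟨_, rfl⟩
  have hg0 : 0 ≤ g := by
    rw [hg]
    have : Real.exp (-(1 / 2 : ℝ)) < 1 := by rw [Real.exp_lt_one_iff]; norm_num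
    exact inv_nonneg.2 (by linarith)
  obtain ⟨t₂, ht₂⟩ := eventually_atTop.1
    ((Sq_top.eventually_ge_atTop (2 * Real.log (2 * (1 + Real.exp 4 * g)) / ε)).and
      (Real.tendsto_log_atTop.eventually_ge_atTop (24 * 24 ^ 2 : ℝ)))
  refine ⟨max (max t₁ t₂) (Real.log (2 * C₁) * 3 / 2), lt_max_of_lt_left (lt_max_of_lt_left ht₁),
    fun R t F ht0 htR hF => ?_⟩
  have ht1 : t₁ ≤ t := ((le_max_left _ _).trans (le_max_left _ _)).trans ht0
  have ht2 : t₂ ≤ t := ((le_max_right _ _).trans (le_max_left _ _)).trans ht0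
  have ht3 : Real.log (2 * C₁) * 3 / 2 ≤ t := (le_max_right _ _).trans ht0
  obtain ⟨hS1, hL⟩ := ht₂ t ht2
  have htp : 1 < t := by linarith
  have hR : 0 < R := by
    by_contra h
    have : κ₀ * R ≤ 0 := mul_nonpos_of_nonneg_of_nonpos hκ0.le (not_lt.1 h)
    linarith
  have htR5 : t ≤ R / 5 := htR.trans (by nlinarith)
  -- the choice of the ideals
  have hP' : ∀ x : K, ∃ P : Fin 3 → Idl K, x ∈ F → IsP ∅ x P ∧ tr P ≤ R ∧ tr P + t ≤ 3 * ht x := by
    intro x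
    by_cases hx : x ∈ F
    · obtain ⟨P, hP⟩ := (hF x hx).2
      exact ⟨P, fun _ => hP⟩
    · exact ⟨0, fun h => absurd h hx⟩
  choose P hP using hP'
  obtain ⟨E1, hE1⟩ : ∃ E1, E1 = Real.exp (2 / 3 * R - 1 / 3 * t + (1 + ε / 2) * Sq t) := ⟨_, rfl⟩
  obtain ⟨E2, hE2⟩ : ∃ E2, E2 = Real.exp (2 / 3 * R - 1 / 3 * t + (1 + ε) * Sq t) := ⟨_, rfl⟩
  have hE10 : 0 < E1 := by rw [hE1]; exact Real.exp_pos _
  have hE20 : 0 < E2 := by rw [hE2]; exact Real.exp_pos _
  have hS0 := Sq_nonneg t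
  have hE12 : 2 * (1 + Real.exp 4 * g) * E1 ≤ E2 := by
    have h1 : 2 * (1 + Real.exp 4 * g) * E1 =
        Real.exp (Real.log (2 * (1 + Real.exp 4 * g)) +
          (2 / 3 * R - 1 / 3 * t + (1 + ε / 2) * Sq t)) := by
      rw [Real.exp_add _ (2 / 3 * R - 1 / 3 * t + (1 + ε / 2) * Sq t),
        Real.exp_log (by positivity), hE1]
    rw [h1, hE2]
    apply Real.exp_le_exp.2
    rw [div_le_iff₀ hε] at hS1
    linarith
  rw [← hE2]
  -- large heights
  have hbig : ((#{x ∈ F | 2 / 5 * R ≤ ht x} : ℕ) : ℝ) ≤ E2 / 2 := by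
    refine (hexc R _ hR.le fun x hx => ?_).trans ?_
    · rw [mem_filter] at hx
      exact ⟨(hF x hx.1).1, hx.2, P x, (hP x hx.1).1, (hP x hx.1).2.1⟩
    · rw [le_div_iff₀ (by norm_num : (0 : ℝ) < 2)]
      have e1 : C₁ * Real.exp ((2 / 3 - ν) * R) * 2 =
          Real.exp (Real.log (2 * C₁) + (2 / 3 - ν) * R) := by
        rw [Real.exp_add, Real.exp_log (by positivity)]
        ring
      rw [e1, hE2]
      apply Real.exp_le_exp.2
      have h1 : t ≤ ν * R := htR.trans (mul_le_mul_of_nonneg_right hκν hR.le)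
      have h2 : 0 ≤ (1 + ε) * Sq t := by positivity
      linarith
  have hsplit : (F.card : ℝ) = ((#{x ∈ F | 2 / 5 * R ≤ ht x} : ℕ) : ℝ) +
      ((#{x ∈ F | ¬ 2 / 5 * R ≤ ht x} : ℕ) : ℝ) := by
    exact_mod_cast (Finset.card_filter_add_card_filter_not _).symm
  set F₁ : Finset K := {x ∈ F | ¬ 2 / 5 * R ≤ ht x} with hF₁
  have hF₁m : ∀ x ∈ F₁, x ∈ F ∧ ht x < 2 / 5 * R := by
    intro x hx
    rw [hF₁, mem_filter] at hx
    exact ⟨hx.1, not_le.1 hx.2⟩
  have hrest : (F₁.card : ℝ) ≤ E2 / 2 := by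
    have hlow : ((#{x ∈ F₁ | ht x ≤ (R + t) / 3} : ℕ) : ℝ) ≤ E1 := by
      refine (hup ((R + t) / 3) t _ ht1 (by linarith) fun x hx => ?_).trans ?_
      · rw [mem_filter] at hx
        have hxF := (hF₁m x hx.1).1
        exact ⟨(hF x hxF).1, hx.2, P x, (hP x hxF).1, (hP x hxF).2.2⟩
      · rw [hE1]
        apply Real.exp_le_exp.2
        linarith
    have hsplit' : (F₁.card : ℝ) = ((#{x ∈ F₁ | ht x ≤ (R + t) / 3} : ℕ) : ℝ) +
        ((#{x ∈ F₁ | ¬ ht x ≤ (R + t) / 3} : ℕ) : ℝ) := by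
      exact_mod_cast (Finset.card_filter_add_card_filter_not _).symm
    set F₂ : Finset K := {x ∈ F₁ | ¬ ht x ≤ (R + t) / 3} with hF₂
    have hF₂m : ∀ x ∈ F₂, x ∈ F ∧ ht x < 2 / 5 * R ∧ (R + t) / 3 < ht x := by
      intro x hx
      rw [hF₂, mem_filter] at hx
      exact ⟨(hF₁m x hx.1).1, (hF₁m x hx.1).2, not_le.1 hx.2⟩
    have hmid : (F₂.card : ℝ) ≤ Real.exp 4 * g * E1 := by
      obtain ⟨n, hn⟩ : ∃ n : ℕ, 2 / 5 * R + 1 < n := exists_nat_gt _
      rw [card_eq_sum_card_fiberwise (f := fun x => ⌈ht x - (R + t) / 3⌉₊) (t := range n) (by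
        intro x hx
        obtain ⟨-, h1, h2⟩ := hF₂m x (Finset.mem_coe.1 hx)
        simp only [coe_range, Set.mem_Iio]
        have h3 := Nat.ceil_lt_add_one (a := ht x - (R + t) / 3) (by linarith)
        have h4 : ((⌈ht x - (R + t) / 3⌉₊ : ℕ) : ℝ) < n := by
          have : 0 ≤ (R + t) / 3 := by positivity
          linarith
        exact_mod_cast h4)]
      push_cast
      have hfib : ∀ j ∈ range n, ((#{x ∈ F₂ | ⌈ht x - (R + t) / 3⌉₊ = j} : ℕ) : ℝ) ≤
          Real.exp 4 * E1 * Real.exp (-(1 / 2 * (j : ℝ))) := by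
        intro j _
        rcases Finset.eq_empty_or_nonempty {x ∈ F₂ | ⌈ht x - (R + t) / 3⌉₊ = j} with he | hne
        · rw [he, card_empty]
          simp only [Nat.cast_zero]
          positivity
        · obtain ⟨y, hy⟩ := hne
          rw [mem_filter] at hy
          obtain ⟨-, hy1, hy2⟩ := hF₂m y hy.1
          have hj1 : 1 ≤ j := by
            rw [← hy.2]
            exact Nat.one_le_iff_ne_zero.2 (Nat.ceil_pos.2 (by linarith)).ne'
          have hj1' : (1 : ℝ) ≤ j := by exact_mod_cast hj1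
          have hyj : (j : ℝ) < ht y - (R + t) / 3 + 1 := by
            rw [← hy.2]
            exact Nat.ceil_lt_add_one (by linarith)
          have hc := hup ((R + t) / 3 + j) (t + 3 * (j - 1)) {x ∈ F₂ | ⌈ht x - (R + t) / 3⌉₊ = j}
            (by linarith) (by linarith) (by
              intro x hx
              rw [mem_filter] at hx
              obtain ⟨hxF, hx1, hx2⟩ := hF₂m x hx.1
              have h5 : ht x - (R + t) / 3 ≤ j := by
                rw [← hx.2]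
                exact Nat.le_ceil _
              have h6 : (j : ℝ) < ht x - (R + t) / 3 + 1 := by
                rw [← hx.2]
                exact Nat.ceil_lt_add_one (by linarith)
              refine ⟨(hF x hxF).1, by linarith, P x, (hP x hxF).1, ?_⟩
              have h7 := (hP x hxF).2.1
              linarith)
          refine hc.trans ?_
          rw [hE1, ← Real.exp_add, ← Real.exp_add]
          apply Real.exp_le_exp.2
          have h8 := Sq_add hL htp (s := 3 * ((j : ℝ) - 1)) (by linarith)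
          have h9 : (1 + ε / 2) * Sq (t + 3 * (j - 1)) ≤
              (1 + ε / 2) * (Sq t + (3 * ((j : ℝ) - 1) + 1) / 24) :=
            mul_le_mul_of_nonneg_left h8 (by positivity)
          have h10 : (1 + ε / 2) * ((3 * ((j : ℝ) - 1) + 1) / 24) ≤
              2 * ((3 * ((j : ℝ) - 1) + 1) / 24) :=
            mul_le_mul_of_nonneg_right (by linarith) (by linarith)
          linarith
      refine (Finset.sum_le_sum hfib).trans ?_
      rw [← Finset.mul_sum]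
      have h10 := geom_le (u := 1 / 2) (by norm_num) n
      rw [← hg] at h10
      calc Real.exp 4 * E1 * ∑ j ∈ range n, Real.exp (-(1 / 2 * (j : ℝ)))
          ≤ Real.exp 4 * E1 * g := mul_le_mul_of_nonneg_left h10 (by positivity)
        _ = _ := by ring
    rw [hsplit']
    linarith
  rw [hsplit]
  linarith

end Pool.Agent.KS6_64.RO
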