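import Pool.Agent.KS6_64.RO.Cell
import Pool.Graph.R_pool_sql_team_seeded_63374d34.N906.RS.Fin
import Pool.Graph.R_seed8.Results.MP_a793bb_nt.AlmostAllPoints

/-!
# The number of the points of bounded radical, of whatever height
-/

set_option autoImplicit false

namespace Pool.Agent.KS6_64.RO

open NumberField IsDedekindDomain Finset Filter Topology Pool.Agent.H691R3 Pool.Agent.W223.AK
open Pool.Agent.N906.RS Pool.Agent.N776.RS

/-- the points with large height compared to the radical (`AlmostAllPoints` of the library) -/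
theorem exc_aff (K : Type) [Field K] [NumberField K] {M : ℝ} (hM : 1 / 3 < M) :
    ∃ ν C : ℝ, 0 < ν ∧ 0 < C ∧ ∀ (R : ℝ) (F : Finset K), 0 ≤ R →
      (∀ x ∈ F, Pt x ∧ M * R ≤ ht x ∧ ∃ P : Fin 3 → Idl K, IsP ∅ x P ∧ tr P ≤ R) →
      (F.card : ℝ) ≤ C * Real.exp ((2 / 3 - ν) * R) := by
  classical
  have hd : (0 : ℝ) < Module.finrank ℚ K := by
    exact_mod_cast (Module.finrank_pos (R := ℚ) (M := K))
  obtain ⟨d, hdd⟩ : ∃ d : ℝ, d = Module.finrank ℚ K := ⟨_, rfl⟩
  rw [← hdd] at hd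
  obtain ⟨h1, h2, -⟩ := Pool.Agent.Results.MP_a793bb_nt.AlmostAllPoints.result K ∅ Set.finite_empty
  obtain ⟨⟨ν, C, hν, hC, hexc⟩, -⟩ := h2 M hM
  obtain ⟨⟨C', hpts⟩, -⟩ := h1 1 one_pos
  refine ⟨ν / d, C, by positivity, hC, fun R F hR hF => ?_⟩
  obtain ⟨X, hX⟩ : ∃ X, X = Real.exp (R / d) := ⟨_, rfl⟩
  have hX1 : 1 ≤ X := by rw [hX]; exact Real.one_le_exp (by positivity)
  have hsub : (fun y : K => Projectivization.mk K (w3 y) (w3_ne y)) '' (F : Set K) ⊆
      Pool.Agent.Results.MP_a793bb_nt.AlmostAllPoints.Exceptions ∅ M X := by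
    rintro _ ⟨y, hy, rfl⟩
    obtain ⟨hp, hm, P, hP, hr⟩ := hF y (Finset.mem_coe.1 hy)
    have e1 : (w3 y) 1 = 1 := rfl
    have e0 : (w3 y) 0 = y := rfl
    have e2 : (w3 y) 2 = -(y + 1) := rfl
    have hs : w3 y 0 + w3 y 1 + w3 y 2 = 0 := by rw [e0, e1, e2]; ring
    have hx1 : w3 y 1 ≠ 0 := by rw [e1]; exact one_ne_zero
    have hd' : w3 y 0 / w3 y 1 = y := by rw [e0, e1, div_one]
    have hb := H3_bounds hx1 hs
    rw [hd'] at hb
    have hP' : IsP (∅ : Finset (Pr K)) (w3 y 0 / w3 y 1) P := by rwa [hd']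
    have hR3 := R3_eq (T := (∅ : Set (Pr K))) (T' := (∅ : Finset (Pr K))) (fun v => by simp) hx1
      hs hP'
    have hrad : Pool.Agent.Results.MP_a793bb_nt.AlmostAllPoints.rad ∅ (w3 y) = tr P / d := by
      unfold tr
      rw [Fin.sum_univ_three, ← hR3, hdd]
      rfl
    have hhei : Pool.Agent.Results.MP_a793bb_nt.AlmostAllPoints.height (w3 y) = H3 (w3 y) / d := by
      rw [hdd]
      rfl
    refine ⟨w3 y, w3_ne y, rfl, hs, ?_, ?_, ?_⟩
    · rw [e0, e1, e2]
      exact mul_ne_zero (mul_ne_zero hp.1 one_ne_zero) (neg_ne_zero.mpr hp.2)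
    · rw [hrad, hX]
      exact Real.exp_le_exp.2 (div_le_div_of_nonneg_right hr hd.le)
    · rw [hrad, hhei, ← mul_div_assoc]
      apply div_le_div_of_nonneg_right _ hd.le
      have : M * tr P ≤ M * R := mul_le_mul_of_nonneg_left hr (by linarith)
      linarith [hb.1]
  have hfin : (Pool.Agent.Results.MP_a793bb_nt.AlmostAllPoints.Exceptions
      (K := K) ∅ M X).Finite := by
    refine (hpts X hX1).1.subset ?_
    rintro P ⟨x, hx, a1, a2, a3, a4, -⟩
    exact ⟨x, hx, a1, a2, a3, a4⟩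
  have h3 : (F.card : ℝ) ≤ ((Pool.Agent.Results.MP_a793bb_nt.AlmostAllPoints.Exceptions
      (K := K) ∅ M X).ncard : ℝ) := by
    have h4 := Set.ncard_le_ncard hsub hfin
    rw [Set.ncard_image_of_injective _ w3_inj, Set.ncard_coe_finset] at h4
    exact_mod_cast h4
  refine h3.trans ((hexc X hX1).trans (le_of_eq ?_))
  rw [hX, ← hdd, ← Real.exp_mul]
  congr 2
  field_simp

/-- all points of height at most `X` -/
theorem cellz (K : Type) [Field K] [NumberField K] : ∃ C : ℝ, 0 < C ∧ ∀ (X : ℝ) (F : Finset K),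
    0 ≤ X → (∀ x ∈ F, Pt x ∧ ht x ≤ X) → (F.card : ℝ) ≤ C * Real.exp (2 * X) := by
  obtain ⟨C, hC, hcell⟩ := Pool.Agent.N427.RS.cell0 (cell_all K)
  refine ⟨2 * C, by positivity, fun X F hX hF => ?_⟩
  have h := hcell X 0 F hX fun x hx => ⟨(hF x hx).1, (hF x hx).2, fun l => bot_le⟩
  have e1 : tl (0 : Fin 3 → Idl K) = 0 := by simp [tl]
  rw [e1, sub_zero] at h
  have h1 : 1 ≤ Real.exp (2 * X) := Real.one_le_exp (by linarith)
  refine h.trans ?_
  nlinarith

/-- **The points with `tr ≤ R` and `tr + t ≤ 3 ht`.** -/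
theorem radical_upper (K : Type) [Field K] [NumberField K] {δ : ℝ} (hδ : 0 < δ) :
    ∃ ν C : ℝ, 0 < ν ∧ 0 < C ∧ ∀ (R t : ℝ) (F : Finset K), 0 ≤ R → 0 ≤ t →
      (∀ x ∈ F, Pt x ∧ ∃ P : Fin 3 → Idl K, IsP ∅ x P ∧ tr P ≤ R ∧ tr P + t ≤ 3 * ht x) →
      (F.card : ℝ) ≤ C * (Real.exp (2 / 3 * R - (1 / 3 - δ) * t) + Real.exp ((2 / 3 - ν) * R)) := by
  classical
  obtain ⟨δ', hδ'⟩ : ∃ δ', δ' = min δ (1 / 6) := ⟨_, rfl⟩
  have hδ'0 : 0 < δ' := by rw [hδ']; exact lt_min hδ (by norm_num)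
  have hδ'δ : δ' ≤ δ := by rw [hδ']; exact min_le_left _ _
  have hδ'6 : δ' ≤ 1 / 6 := by rw [hδ']; exact min_le_right _ _
  obtain ⟨C, hC, hdef⟩ := deficiency K (3 / 4) δ' (by norm_num) hδ'0
  obtain ⟨ν₁, C₁, hν₁, hC₁, hexc⟩ := exc_aff K (M := 2 / 5) (by norm_num)
  obtain ⟨ν, hν⟩ : ∃ ν, ν = min ν₁ (1 / 30) := ⟨_, rfl⟩
  have hν0 : 0 < ν := by rw [hν]; exact lt_min hν₁ (by norm_num)
  have hνν : ν ≤ ν₁ := by rw [hν]; exact min_le_left _ _
  have hν30 : ν ≤ 1 / 30 := by rw [hν]; exact min_le_right _ _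
  obtain ⟨g, hg⟩ : ∃ g, g = (1 - Real.exp (-(1 / 2 : ℝ)))⁻¹ := ⟨_, rfl⟩
  have hg0 : 0 ≤ g := by
    rw [hg]
    have : Real.exp (-(1 / 2 : ℝ)) < 1 := by rw [Real.exp_lt_one_iff]; norm_num
    exact inv_nonneg.2 (by linarith)
  refine ⟨ν, C + C * Real.exp 3 * g + C₁, hν0, by positivity, fun R t F hR ht0 hF => ?_⟩
  -- the choice of the ideals
  have hP' : ∀ x : K, ∃ P : Fin 3 → Idl K, x ∈ F → IsP ∅ x P ∧ tr P ≤ R ∧ tr P + t ≤ 3 * ht x := by
    intro x
    by_cases hx : x ∈ F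
    · obtain ⟨P, hP⟩ := (hF x hx).2
      exact ⟨P, fun _ => hP⟩
    · exact ⟨0, fun h => absurd h hx⟩
  choose P hP using hP'
  obtain ⟨E1, hE1⟩ : ∃ E1, E1 = Real.exp (2 / 3 * R - (1 / 3 - δ) * t) := ⟨_, rfl⟩
  obtain ⟨E2, hE2⟩ : ∃ E2, E2 = Real.exp ((2 / 3 - ν) * R) := ⟨_, rfl⟩
  have hE10 : 0 < E1 := by rw [hE1]; exact Real.exp_pos _
  have hE20 : 0 < E2 := by rw [hE2]; exact Real.exp_pos _
  rw [← hE1, ← hE2]
  -- large heights
  have hbig : ((#{x ∈ F | 2 / 5 * R ≤ ht x} : ℕ) : ℝ) ≤ C₁ * E2 := by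
    refine (hexc R _ hR fun x hx => ?_).trans ?_
    · rw [mem_filter] at hx
      exact ⟨(hF x hx.1).1, hx.2, P x, (hP x hx.1).1, (hP x hx.1).2.1⟩
    · apply mul_le_mul_of_nonneg_left _ hC₁.le
      rw [hE2]
      apply Real.exp_le_exp.2
      have := mul_le_mul_of_nonneg_right hνν hR
      linarith
  have hsplit : (F.card : ℝ) = ((#{x ∈ F | 2 / 5 * R ≤ ht x} : ℕ) : ℝ) +
      ((#{x ∈ F | ¬ 2 / 5 * R ≤ ht x} : ℕ) : ℝ) := by
    exact_mod_cast (Finset.card_filter_add_card_filter_not _).symm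
  set F₁ : Finset K := {x ∈ F | ¬ 2 / 5 * R ≤ ht x} with hF₁
  have hF₁m : ∀ x ∈ F₁, x ∈ F ∧ ht x < 2 / 5 * R := by
    intro x hx
    rw [hF₁, mem_filter] at hx
    exact ⟨hx.1, not_le.1 hx.2⟩
  have hrest : (F₁.card : ℝ) ≤ (C + C * Real.exp 3 * g) * (E1 + E2) := by
    rcases le_or_gt t (R / 5) with htR | htR
    · -- small `t`
      have hlow : ((#{x ∈ F₁ | ht x ≤ (R + t) / 3} : ℕ) : ℝ) ≤ C * E1 := by
        refine (hdef ((R + t) / 3) t _ (by positivity) ht0 (by linarith) fun x hx => ?_).trans ?_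
        · rw [mem_filter] at hx
          have hxF := (hF₁m x hx.1).1
          exact ⟨(hF x hxF).1, hx.2, P x, (hP x hxF).1, (hP x hxF).2.2⟩
        · apply mul_le_mul_of_nonneg_left _ hC.le
          rw [hE1]
          apply Real.exp_le_exp.2
          have := mul_le_mul_of_nonneg_right hδ'δ ht0
          nlinarith
      have hsplit' : (F₁.card : ℝ) = ((#{x ∈ F₁ | ht x ≤ (R + t) / 3} : ℕ) : ℝ) +
          ((#{x ∈ F₁ | ¬ ht x ≤ (R + t) / 3} : ℕ) : ℝ) := by
        exact_mod_cast (Finset.card_filter_add_card_filter_not _).symm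
      set F₂ : Finset K := {x ∈ F₁ | ¬ ht x ≤ (R + t) / 3} with hF₂
      have hF₂m : ∀ x ∈ F₂, x ∈ F ∧ ht x < 2 / 5 * R ∧ (R + t) / 3 < ht x := by
        intro x hx
        rw [hF₂, mem_filter] at hx
        exact ⟨(hF₁m x hx.1).1, (hF₁m x hx.1).2, not_le.1 hx.2⟩
      have hmid : (F₂.card : ℝ) ≤ C * Real.exp 3 * g * E1 := by
        obtain ⟨n, hn⟩ : ∃ n : ℕ, 2 / 5 * R + 1 < n := exists_nat_gt _
        rw [card_eq_sum_card_fiberwise (f := fun x => ⌈ht x - (R + t) / 3⌉₊) (t := range n) (by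
          intro x hx
          obtain ⟨-, h1, h2⟩ := hF₂m x (Finset.mem_coe.1 hx)
          simp only [coe_range, Set.mem_Iio]
          have h3 := Nat.ceil_lt_add_one (a := ht x - (R + t) / 3) (by linarith)
          have h4 : ((⌈ht x - (R + t) / 3⌉₊ : ℕ) : ℝ) < n := by
            have : 0 ≤ (R + t) / 3 := by positivity
            linarith
          exact_mod_cast h4)]
        push_cast
        have hfib : ∀ j ∈ range n, ((#{x ∈ F₂ | ⌈ht x - (R + t) / 3⌉₊ = j} : ℕ) : ℝ) ≤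
            C * Real.exp 3 * E1 * Real.exp (-(1 / 2 * (j : ℝ))) := by
          intro j _
          rcases Finset.eq_empty_or_nonempty {x ∈ F₂ | ⌈ht x - (R + t) / 3⌉₊ = j} with he | hne
          · rw [he, card_empty]
            simp only [Nat.cast_zero]
            positivity
          · obtain ⟨y, hy⟩ := hne
            rw [mem_filter] at hy
            obtain ⟨-, hy1, hy2⟩ := hF₂m y hy.1
            have hj1 : 1 ≤ j := by
              rw [← hy.2]
              exact Nat.one_le_iff_ne_zero.2 (Nat.ceil_pos.2 (by linarith)).ne'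
            have hj1' : (1 : ℝ) ≤ j := by exact_mod_cast hj1
            have hyj : (j : ℝ) < ht y - (R + t) / 3 + 1 := by
              rw [← hy.2]
              exact Nat.ceil_lt_add_one (by linarith)
            have hc := hdef ((R + t) / 3 + j) (t + 3 * (j - 1)) {x ∈ F₂ | ⌈ht x - (R + t) / 3⌉₊ = j}
              (by positivity) (by linarith) (by linarith) (by
                intro x hx
                rw [mem_filter] at hx
                obtain ⟨hxF, hx1, hx2⟩ := hF₂m x hx.1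
                have h5 : ht x - (R + t) / 3 ≤ j := by
                  rw [← hx.2]
                  exact Nat.le_ceil _
                have h6 : (j : ℝ) < ht x - (R + t) / 3 + 1 := by
                  rw [← hx.2]
                  exact Nat.ceil_lt_add_one (by linarith)
                refine ⟨(hF x hxF).1, by linarith, P x, (hP x hxF).1, ?_⟩
                have h7 := (hP x hxF).2.1
                linarith)
            refine hc.trans ?_
            have e1 : Real.exp (2 * ((R + t) / 3 + j) - (1 - δ') * (t + 3 * (j - 1))) ≤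
                Real.exp 3 * E1 * Real.exp (-(1 / 2 * (j : ℝ))) := by
              rw [hE1, ← Real.exp_add, ← Real.exp_add]
              apply Real.exp_le_exp.2
              have h8 := mul_le_mul_of_nonneg_right hδ'δ ht0
              have h9 : δ' * (3 * (j : ℝ)) ≤ 1 / 6 * (3 * j) :=
                mul_le_mul_of_nonneg_right hδ'6 (by positivity)
              nlinarith
            calc C * Real.exp (2 * ((R + t) / 3 + j) - (1 - δ') * (t + 3 * (j - 1)))
                ≤ C * (Real.exp 3 * E1 * Real.exp (-(1 / 2 * (j : ℝ)))) :=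
                  mul_le_mul_of_nonneg_left e1 hC.le
              _ = _ := by ring
        refine (Finset.sum_le_sum hfib).trans ?_
        rw [← Finset.mul_sum]
        have h10 := geom_le (u := 1 / 2) (by norm_num) n
        rw [← hg] at h10
        calc C * Real.exp 3 * E1 * ∑ j ∈ range n, Real.exp (-(1 / 2 * (j : ℝ)))
            ≤ C * Real.exp 3 * E1 * g := mul_le_mul_of_nonneg_left h10 (by positivity)
          _ = _ := by ring
      rw [hsplit']
      have : 0 ≤ (C + C * Real.exp 3 * g) * E2 := by positivity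
      nlinarith
    · -- large `t`
      have hc := hdef (2 / 5 * R) (R / 5) F₁ (by positivity) (by positivity) (by linarith) (by
        intro x hx
        obtain ⟨hxF, hx1⟩ := hF₁m x hx
        refine ⟨(hF x hxF).1, hx1.le, P x, (hP x hxF).1, ?_⟩
        have := (hP x hxF).2.2
        linarith)
      have e1 : Real.exp (2 * (2 / 5 * R) - (1 - δ') * (R / 5)) ≤ E2 := by
        rw [hE2]
        apply Real.exp_le_exp.2
        have h8 := mul_le_mul_of_nonneg_right hδ'6 hR
        have h9 := mul_le_mul_of_nonneg_right hν30 hR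
        nlinarith
      have h11 := mul_le_mul_of_nonneg_left e1 hC.le
      have h12 : 0 ≤ (C * Real.exp 3 * g) * (E1 + E2) := by positivity
      have h13 : 0 ≤ C * E1 := by positivity
      linarith
  rw [hsplit]
  have : 0 ≤ C₁ * E1 := by positivity
  linarith

end Pool.Agent.KS6_64.RO
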